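import Pool.Agent.J4H75.CN.All

set_option autoImplicit false

/-! Decay of functions which satisfy the inequalities of the Fourier transforms of random series. -/

namespace Pool.Agent.J4H75.CM

open MeasureTheory Finset Filter Topology
open scoped Real ENNReal
open Pool.Agent.J4H40.Ca (dn dn_nn dn_half)
open Pool.Agent.J4H75.CN (WS ws_large seq_mono seq_word prod_pos' dn_cont Vo Vo_comp Vo_limsup Vo_bdd tr_len)

/-- the averaging operator of the ratios -/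
def Ar {ι : Type} [Fintype ι] (p r : ι → ℝ) (f : ℝ → ℝ) : ℝ → ℝ := fun t => ∑ i, p i * f (r i * t)

/-- the inequalities -/
structure Qs {ι : Type} [Fintype ι] (p r : ι → ℝ) (B : ℕ) (κ u ρ Λ : ℝ) (Q : ℝ → ℝ) : Prop where
  p_pos : ∀ i, 0 < p i
  psum : ∑ i, p i = 1
  r_ne : ∀ i, r i ≠ 0
  r_lt : ∀ i, |r i| < 1
  κ_pos : 0 < κ
  u_pos : 0 < u
  ρ_ne : ρ ≠ 0
  nn : ∀ t, 0 ≤ Q t
  le1 : ∀ t, Q t ≤ 1
  neg : ∀ t, Q (-t) = Q t
  lip : ∀ t s, |Q t - Q s| ≤ Λ * |t - s|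
  q1 : ∀ t, Q t ≤ Ar p r Q t
  k1 : ∀ t, Q t ≤ (Ar p r)^[B] Q t - κ * dn (u * t) ^ 2 * Q (ρ * t)
  k2 : ∀ t R, (∀ w : Fin B → ι, Q ((∏ l, r (w l)) * t) ≤ R) → Q t ≤ (1 - κ * dn (u * t) ^ 2) * R

variable {ι : Type} [Fintype ι] {p r : ι → ℝ} {B : ℕ} {κ u ρ Λ : ℝ} {Q : ℝ → ℝ}

lemma Qs.abs (h : Qs p r B κ u ρ Λ Q) (t : ℝ) : Q |t| = Q t := by
  rcases abs_choice t with h1 | h1
  · rw [h1]
  · rw [h1, h.neg]

lemma Qs.abs2 (h : Qs p r B κ u ρ Λ Q) {t s : ℝ} (hts : |t| = |s|) : Q t = Q s := by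
  rw [← h.abs t, ← h.abs s, hts]

lemma Qs.cont (h : Qs p r B κ u ρ Λ Q) : Continuous Q := by
  have h1 : LipschitzWith (Real.toNNReal Λ) Q := by
    apply LipschitzWith.of_dist_le_mul
    intro t s
    rw [Real.dist_eq, Real.dist_eq]
    refine (h.lip t s).trans ?_
    exact mul_le_mul_of_nonneg_right (Real.le_coe_toNNReal Λ) (abs_nonneg _)
  exact h1.continuous

lemma Qs.nonempty (h : Qs p r B κ u ρ Λ Q) : Nonempty ι := by
  by_contra hc
  rw [not_nonempty_iff] at hc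
  have := h.psum
  rw [Finset.univ_eq_empty, Finset.sum_empty] at this
  exact zero_ne_one this

lemma Qs.consts (h : Qs p r B κ u ρ Λ Q) : ∃ r0 r1 : ℝ, 0 < r0 ∧ r1 < 1 ∧ 0 < r1 ∧
    (∀ i, r0 ≤ |r i| ∧ |r i| ≤ r1) := by
  have := h.nonempty
  obtain ⟨i0, _, h0⟩ := Finset.exists_min_image (univ : Finset ι) (fun i => |r i|) Finset.univ_nonempty
  obtain ⟨i1, _, h1⟩ := Finset.exists_max_image (univ : Finset ι) (fun i => |r i|) Finset.univ_nonempty
  exact ⟨|r i0|, |r i1|, abs_pos.2 (h.r_ne _), h.r_lt _, abs_pos.2 (h.r_ne _),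
    fun i => ⟨h0 i (Finset.mem_univ i), h1 i (Finset.mem_univ i)⟩⟩

/-! ### the lattice case -/

/-- the decay lemma for sequences -/
lemma seq_decay' {k : ι → ℕ} {K B : ℕ} (hp : ∀ i, 0 < p i) (hps : ∑ i, p i = 1) (hk : ∀ i, 1 ≤ k i ∧ k i ≤ K) (hK : 1 ≤ K)
    (hn : ∃ B ∈ WS k, B + 1 ∈ WS k) {κ : ℝ} (hκ : 0 < κ) :
    ∃ (s0 : ℕ) (a' : ℝ), 0 < a' ∧ ∀ Q d : ℕ → ℝ, (∀ n, Q n ≤ 1) → (∀ n, 0 ≤ d n ∧ d n ≤ 1) →
      (∀ n, Q n ≤ ∑ i, p i * Q (n + k i)) → (∀ n R, (∀ m, n ≤ m → m ≤ n + B * K → Q m ≤ R) → Q n ≤ (1 - κ * d n ^ 2) * R) →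
      ∀ J, Q 0 ≤ Real.exp (-(a' * ∑ j ∈ range J, d (s0 + j) ^ 2)) := by
  obtain ⟨D0, hD0⟩ := ws_large hn
  have hw : ∀ e ∈ Ioc D0 (D0 + K), ∃ w : List ι, (w.map k).sum = e := fun e he => hD0 e (Finset.mem_Ioc.1 he).1.le
  choose! w hw using hw
  obtain ⟨a, ha0, ha⟩ : ∃ a : ℝ, 0 < a ∧ ∀ e ∈ Ioc D0 (D0 + K), a ≤ ((w e).map p).prod := by
    obtain ⟨x, hx, hm⟩ := (Ioc D0 (D0 + K)).exists_min_image (fun e => ((w e).map p).prod)
      ⟨D0 + 1, Finset.mem_Ioc.2 ⟨by omega, by omega⟩⟩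
    exact ⟨_, prod_pos' hp (w x), hm⟩
  obtain ⟨B0, hB0⟩ : ∃ B0, B0 = B * K + K + D0 + 1 := ⟨_, rfl⟩
  have hB0r : (0 : ℝ) < B0 := by
    have : 0 < B0 := by omega
    exact_mod_cast this
  refine ⟨K + D0, a * κ / B0, by positivity, ?_⟩
  intro Q d hQ1 hd h1 h2 J
  have block : ∀ n R, 0 ≤ R → (∀ m, n + B0 ≤ m → m < n + B0 + K → Q m ≤ R) →
      ∀ m, n ≤ m → m < n + K → Q m ≤ (1 - a * κ * d (n + (K + D0)) ^ 2) * R := by
    intro n R hR0 hR m hm1 hm2
    have hR' := seq_mono hp hps hk h1 hR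
    have e1 : n + (K + D0) - m ∈ Ioc D0 (D0 + K) := by
      rw [Finset.mem_Ioc]
      omega
    have e2 := hw _ e1
    have e3 := seq_word hp hps hk h1 hR' (w (n + (K + D0) - m)) m (by rw [e2]; omega)
    rw [e2] at e3
    have e4 : m + (n + (K + D0) - m) = n + (K + D0) := by omega
    rw [e4] at e3
    have e5 := h2 (n + (K + D0)) R (fun m' hm1' hm2' => hR' _ (by omega))
    obtain ⟨P, hP⟩ : ∃ P, P = ((w (n + (K + D0) - m)).map p).prod := ⟨_, rfl⟩
    have hPa := ha _ e1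
    rw [← hP] at e3 hPa
    have hP0 : 0 < P := by rw [hP]; exact prod_pos' hp _
    have e6 := mul_le_mul_of_nonneg_left e5 hP0.le
    have e7 : (1 - P) * R + P * ((1 - κ * d (n + (K + D0)) ^ 2) * R) = (1 - P * κ * d (n + (K + D0)) ^ 2) * R := by ring
    have e8 : a * κ * d (n + (K + D0)) ^ 2 ≤ P * κ * d (n + (K + D0)) ^ 2 := by gcongr
    have e9 : (1 - P * κ * d (n + (K + D0)) ^ 2) * R ≤ (1 - a * κ * d (n + (K + D0)) ^ 2) * R :=
      mul_le_mul_of_nonneg_right (by linarith) hR0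
    linarith
  have iter : ∀ L n m, n ≤ m → m < n + K → Q m ≤ Real.exp (-(a * κ * ∑ l ∈ range L, d (n + l * B0 + (K + D0)) ^ 2)) := by
    intro L
    induction L with
    | zero =>
      intro n m _ _
      simp only [Finset.range_zero, Finset.sum_empty, mul_zero, neg_zero, Real.exp_zero]
      exact hQ1 m
    | succ L ih =>
      intro n m hm1 hm2
      have e1 := block n (Real.exp (-(a * κ * ∑ l ∈ range L, d (n + B0 + l * B0 + (K + D0)) ^ 2))) (Real.exp_pos _).le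
        (fun m hm3 hm4 => ih (n + B0) m hm3 hm4) m hm1 hm2
      refine e1.trans ?_
      have e2 : 1 - a * κ * d (n + (K + D0)) ^ 2 ≤ Real.exp (-(a * κ * d (n + (K + D0)) ^ 2)) := by
        have := Real.add_one_le_exp (-(a * κ * d (n + (K + D0)) ^ 2))
        linarith
      refine (mul_le_mul_of_nonneg_right e2 (Real.exp_pos _).le).trans (le_of_eq ?_)
      rw [← Real.exp_add, Finset.sum_range_succ']
      congr 1
      have e3 : ∀ l, n + B0 + l * B0 + (K + D0) = n + (l + 1) * B0 + (K + D0) := by intro l; ring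
      simp only [e3, zero_mul, add_zero]
      ring
  have hclass : ∀ c L, Q 0 ≤ Real.exp (-(a * κ * ∑ l ∈ range L, d (c + l * B0 + (K + D0)) ^ 2)) := by
    intro c L
    exact seq_mono hp hps hk h1 (iter L c) 0 (by omega)
  -- sum over the classes
  have hdouble : ∀ L, ∑ j ∈ range (L * B0), d (K + D0 + j) ^ 2 = ∑ c ∈ range B0, ∑ l ∈ range L, d (c + l * B0 + (K + D0)) ^ 2 := by
    intro L
    induction L with
    | zero => simp
    | succ L ih =>
      have e1 : (L + 1) * B0 = L * B0 + B0 := by ring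
      rw [e1, Finset.sum_range_add, ih, ← Finset.sum_add_distrib]
      refine Finset.sum_congr rfl fun c _ => ?_
      rw [Finset.sum_range_succ]
      congr 3
      ring
  have hJ : ∑ j ∈ range J, d (K + D0 + j) ^ 2 ≤ ∑ j ∈ range (J * B0), d (K + D0 + j) ^ 2 := by
    apply Finset.sum_le_sum_of_subset_of_nonneg
    · apply Finset.range_subset_range.2
      exact Nat.le_mul_of_pos_right _ (by omega)
    · intro j _ _
      positivity
  obtain ⟨c, hc, hcm⟩ := Finset.exists_max_image (range B0) (fun c => ∑ l ∈ range J, d (c + l * B0 + (K + D0)) ^ 2)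
    ⟨0, Finset.mem_range.2 (by omega)⟩
  have h3 : ∑ j ∈ range J, d (K + D0 + j) ^ 2 ≤ B0 * ∑ l ∈ range J, d (c + l * B0 + (K + D0)) ^ 2 := by
    refine hJ.trans ?_
    rw [hdouble]
    refine (Finset.sum_le_sum hcm).trans ?_
    rw [Finset.sum_const, card_range, nsmul_eq_mul]
  refine (hclass c J).trans ?_
  apply Real.exp_le_exp.2
  apply neg_le_neg
  rw [div_mul_eq_mul_div, div_le_iff₀ hB0r]
  calc a * κ * ∑ j ∈ range J, d (K + D0 + j) ^ 2 ≤ a * κ * (B0 * ∑ l ∈ range J, d (c + l * B0 + (K + D0)) ^ 2) :=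
        mul_le_mul_of_nonneg_left h3 (by positivity)
    _ = _ := by ring

/-- the decay in the lattice case -/
theorem Qs.lat (h : Qs p r B κ u ρ Λ Q) {β : ℝ} (hβ : 1 < β) {k : ι → ℕ} (hk : ∀ i, 1 ≤ k i ∧ |r i| = 1 / β ^ (k i))
    (hn : ∃ B ∈ WS k, B + 1 ∈ WS k) :
    ∃ (s0 : ℕ) (a' : ℝ), 0 < a' ∧ ∀ (t : ℝ) (J : ℕ),
      Q t ≤ Real.exp (-(a' * ∑ j ∈ range J, dn (u * t / β ^ (s0 + j)) ^ 2)) := by
  have hβ0 : 0 < β := by linarith
  obtain ⟨K, hK⟩ : ∃ K : ℕ, K = 1 + ∑ i, k i := ⟨_, rfl⟩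
  have hki : ∀ i, k i ≤ K := by
    intro i
    have := Finset.single_le_sum (f := k) (fun _ _ => Nat.zero_le _) (Finset.mem_univ i)
    omega
  obtain ⟨s0, a', ha', hs⟩ := seq_decay' (B := B) h.p_pos h.psum (K := K) (fun i => ⟨(hk i).1, hki i⟩) (by omega) hn h.κ_pos
  refine ⟨s0, a', ha', ?_⟩
  intro t J
  have e1 := hs (fun m => Q (t / β ^ m)) (fun m => dn (u * t / β ^ m)) (fun m => h.le1 _)
    (fun m => ⟨dn_nn _, (dn_half _).trans (by norm_num)⟩) ?_ ?_ J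
  · simpa using e1
  · intro m
    refine (h.q1 _).trans (le_of_eq ?_)
    refine Finset.sum_congr rfl fun i _ => ?_
    congr 1
    apply h.abs2
    rw [abs_mul, (hk i).2, abs_div, abs_div, abs_of_pos (pow_pos hβ0 _), abs_of_pos (pow_pos hβ0 _), pow_add]
    field_simp
  · intro m R hR
    have e2 := h.k2 (t / β ^ m) R (fun w => by
      refine le_trans (le_of_eq ?_) (hR (m + ∑ l, k (w l)) (by omega) ?_)
      · apply h.abs2
        rw [abs_mul, Finset.abs_prod]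
        have e3 : ∏ l, |r (w l)| = 1 / β ^ (∑ l, k (w l)) := by
          rw [← Finset.prod_pow_eq_pow_sum, one_div, ← Finset.prod_inv_distrib]
          refine Finset.prod_congr rfl fun l _ => ?_
          rw [(hk _).2, one_div]
        rw [e3, abs_div, abs_div, abs_of_pos (pow_pos hβ0 _), abs_of_pos (pow_pos hβ0 _), pow_add]
        field_simp
      · have e4 : ∑ l, k (w l) ≤ ∑ _l : Fin B, K := Finset.sum_le_sum fun l _ => hki _
        rw [Finset.sum_const, Finset.card_univ, Fintype.card_fin, smul_eq_mul] at e4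
        omega)
    rw [← mul_div_assoc] at e2
    exact e2

/-- the decay in the lattice case with a transcendental base -/
theorem Qs.lat_tr (h : Qs p r B κ u ρ Λ Q) {β : ℝ} (hβ : 1 < β) (hβT : ¬ IsAlgebraic ℚ β) {k : ι → ℕ}
    (hk : ∀ i, 1 ≤ k i ∧ |r i| = 1 / β ^ (k i)) (hn : ∃ B ∈ WS k, B + 1 ∈ WS k) : Tendsto Q atTop (𝓝 0) := by
  obtain ⟨s0, a', ha', hdec⟩ := h.lat hβ hk hn
  have hu := h.u_pos
  have hβ0 : 0 < β := by linarith
  rw [Metric.tendsto_atTop]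
  intro ε hε
  obtain ⟨J, hJ⟩ := tr_len hβ hβT (-Real.log ε / a')
  refine ⟨β ^ (s0 + J) / u, fun t ht => ?_⟩
  rw [Real.dist_eq, sub_zero, abs_of_nonneg (h.nn t)]
  have ht1 : β ^ (s0 + J) ≤ u * t := by
    rw [ge_iff_le, div_le_iff₀ hu] at ht
    linarith
  have ht2 : 1 ≤ u * t := (one_le_pow₀ hβ.le).trans ht1
  obtain ⟨n, hn1, hn2⟩ := exists_nat_pow_near ht2 hβ
  have hnJ : s0 + J ≤ n := by
    by_contra h1
    push Not at h1
    have h2 : β ^ (n + 1) ≤ β ^ (s0 + J) := pow_le_pow_right₀ hβ.le (by omega)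
    linarith
  obtain ⟨x, hx⟩ : ∃ x : ℝ, x = u * t / β ^ n := ⟨_, rfl⟩
  have hxm : x ∈ Set.Icc (1 : ℝ) β := by
    have hp : 0 < β ^ n := pow_pos hβ0 n
    rw [hx]
    constructor
    · rw [le_div_iff₀ hp, one_mul]
      exact hn1
    · rw [div_le_iff₀ hp, ← pow_succ']
      exact hn2.le
  have h1 := hJ x hxm
  have h2 : ∑ j ∈ range J, dn (x * β ^ j) ^ 2 ≤ ∑ j ∈ range (n + 1), dn (u * t / β ^ (s0 + j)) ^ 2 := by
    have e3 : ∑ j ∈ range J, dn (x * β ^ j) ^ 2 =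
        ∑ i ∈ (range J).image (fun j => n - s0 - j), dn (u * t / β ^ (s0 + i)) ^ 2 := by
      rw [Finset.sum_image]
      · refine Finset.sum_congr rfl fun j hj => ?_
        have hj' := Finset.mem_range.1 hj
        congr 2
        rw [hx, div_mul_eq_mul_div, div_eq_div_iff (pow_pos hβ0 _).ne' (pow_pos hβ0 _).ne', mul_assoc, ← pow_add]
        congr 2
        omega
      · intro i hi j hj hij
        rw [Finset.mem_coe, Finset.mem_range] at hi hj
        simp only at hij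
        omega
    rw [e3]
    apply Finset.sum_le_sum_of_subset_of_nonneg
    · intro i hi
      obtain ⟨j, hj, rfl⟩ := Finset.mem_image.1 hi
      exact Finset.mem_range.2 (by omega)
    · intro i _ _
      positivity
  refine (hdec t (n + 1)).trans_lt ?_
  rw [← Real.lt_log_iff_exp_lt hε]
  have h3 := h1.trans_le h2
  rw [div_lt_iff₀ ha'] at h3
  linarith

end Pool.Agent.J4H75.CM
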