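import Pool.Agent.J4H75.CM.Ab

set_option autoImplicit false

/-! The dense case: a Lyapunov argument and the renewal theorem. -/

namespace Pool.Agent.J4H75.CM

open MeasureTheory Finset Filter Topology
open scoped Real ENNReal
open Pool.Agent.J4H40.Ca (dn dn_nn dn_half)
open Pool.Agent.J4H75.CN (WS dn_cont Vo Vo_comp Vo_limsup Vo_bdd)

/-! ### a periodic bump -/

/-- the bump -/
noncomputable def bp (δ x : ℝ) : ℝ := max 0 (1 - dn x ^ 2 / δ ^ 2)

lemma bp_nn (δ x : ℝ) : 0 ≤ bp δ x := le_max_left _ _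

lemma bp_le (δ x : ℝ) : bp δ x ≤ 1 := by
  apply max_le zero_le_one
  have := div_nonneg (sq_nonneg (dn x)) (sq_nonneg δ)
  linarith

lemma bp_cont (δ : ℝ) : Continuous (bp δ) := by
  unfold bp
  exact continuous_const.max (continuous_const.sub ((dn_cont.pow 2).div_const _))

lemma bp_per (δ : ℝ) : Function.Periodic (bp δ) 1 := by
  intro x
  have : dn (x + 1) = dn x := by
    unfold dn
    rw [round_add_one]
    push_cast
    congr 1
    ring
  unfold bp
  rw [this]

lemma bp_one (δ x : ℝ) : 1 ≤ dn x ^ 2 / δ ^ 2 + bp δ x := by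
  have := le_max_right 0 (1 - dn x ^ 2 / δ ^ 2)
  unfold bp
  linarith

lemma bp_zero {δ x : ℝ} (hδ : 0 < δ) (h : δ ≤ dn x) : bp δ x = 0 := by
  apply max_eq_left
  rw [sub_nonpos, one_le_div (by positivity)]
  exact pow_le_pow_left₀ hδ.le h 2

lemma bp_int {δ : ℝ} (hδ : 0 < δ) (hδ2 : δ < 1 / 2) : ∫ x in (0 : ℝ)..1, bp δ x ≤ 2 * δ := by
  have hI : ∀ a b, IntervalIntegrable (bp δ) volume a b := fun a b => (bp_cont δ).intervalIntegrable a b
  have hc : ∀ a b, IntervalIntegrable (fun _ : ℝ => (1 : ℝ)) volume a b := fun a b => continuous_const.intervalIntegrable a b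
  rw [← intervalIntegral.integral_add_adjacent_intervals (hI 0 δ) (hI δ 1),
    ← intervalIntegral.integral_add_adjacent_intervals (hI δ (1 - δ)) (hI (1 - δ) 1)]
  have h1 : ∫ x in (0 : ℝ)..δ, bp δ x ≤ ∫ _x in (0 : ℝ)..δ, (1 : ℝ) :=
    intervalIntegral.integral_mono_on hδ.le (hI _ _) (hc _ _) fun x _ => bp_le δ x
  have h3 : ∫ x in (1 - δ)..1, bp δ x ≤ ∫ _x in (1 - δ)..1, (1 : ℝ) :=
    intervalIntegral.integral_mono_on (by linarith) (hI _ _) (hc _ _) fun x _ => bp_le δ x
  have h2 : ∫ x in δ..(1 - δ), bp δ x = 0 := by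
    rw [intervalIntegral.integral_congr (g := fun _ => (0 : ℝ))]
    · simp
    · intro x hx
      rw [Set.uIcc_of_le (by linarith)] at hx
      simp only
      apply bp_zero hδ
      unfold dn
      rcases le_or_gt (round x) 0 with h | h
      · refine le_trans ?_ (le_abs_self _)
        have : ((round x : ℤ) : ℝ) ≤ 0 := by exact_mod_cast h
        linarith [hx.1]
      · refine le_trans ?_ (neg_le_abs _)
        have : (1 : ℝ) ≤ ((round x : ℤ) : ℝ) := by exact_mod_cast h
        linarith [hx.2]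
  rw [intervalIntegral.integral_const, smul_eq_mul] at h1 h3
  linarith

lemma per_int {h : ℝ → ℝ} (hc : Continuous h) (h0 : ∀ x, 0 ≤ h x) (hp : Function.Periodic h 1) {I : ℝ}
    (hI : ∫ x in (0 : ℝ)..1, h x ≤ I) {T : ℝ} (hT : 0 ≤ T) : ∫ x in (0 : ℝ)..T, h x ≤ (T + 1) * I := by
  have hi : ∀ a b, IntervalIntegrable h volume a b := fun a b => hc.intervalIntegrable a b
  obtain ⟨N, hN⟩ : ∃ N : ℕ, N = ⌈T⌉₊ := ⟨_, rfl⟩
  have hN1 : T ≤ N := by rw [hN]; exact Nat.le_ceil T
  have hN2 : (N : ℝ) ≤ T + 1 := by rw [hN]; exact (Nat.ceil_lt_add_one hT).le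
  have hI0 : 0 ≤ I := (intervalIntegral.integral_nonneg zero_le_one fun x _ => h0 x).trans hI
  have h1 : ∫ x in (0 : ℝ)..T, h x ≤ ∫ x in (0 : ℝ)..N, h x := by
    apply intervalIntegral.integral_mono_interval le_rfl hT hN1
    · filter_upwards with x using h0 x
    · exact hi _ _
  have h2 := hp.intervalIntegral_add_zsmul_eq (N : ℤ) 0 hi
  rw [zero_add, zero_add] at h2
  have h3 : ((N : ℤ) • (1 : ℝ)) = (N : ℝ) := by simp
  rw [h3] at h2
  rw [h2] at h1
  refine h1.trans ?_
  rw [zsmul_eq_mul]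
  push_cast
  calc (N : ℝ) * ∫ x in (0 : ℝ)..1, h x ≤ N * I := mul_le_mul_of_nonneg_left hI (Nat.cast_nonneg _)
    _ ≤ (T + 1) * I := mul_le_mul_of_nonneg_right hN2 hI0

lemma exp_int {h : ℝ → ℝ} (hc : Continuous h) (h0 : ∀ x, 0 ≤ h x) (hp : Function.Periodic h 1) {I : ℝ}
    (hI : ∫ x in (0 : ℝ)..1, h x ≤ I) {u a b : ℝ} (hu : 0 < u) (hab : a ≤ b) (hub : 1 ≤ u * Real.exp b) :
    ∫ y in a..b, h (u * Real.exp y) ≤ 2 * I * Real.exp (b - a) := by
  have hI0 : 0 ≤ I := (intervalIntegral.integral_nonneg zero_le_one fun x _ => h0 x).trans hI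
  have hQc : Continuous fun t => h (u * t) := hc.comp (continuous_const.mul continuous_id)
  have h1 : ∫ y in a..b, h (u * Real.exp y) ≤
      ∫ y in a..b, Real.exp (-a) * (h (u * Real.exp y) * Real.exp y) := by
    apply intervalIntegral.integral_mono_on hab
    · exact (hQc.comp Real.continuous_exp).intervalIntegrable _ _
    · exact (continuous_const.mul ((hQc.comp Real.continuous_exp).mul Real.continuous_exp)).intervalIntegrable _ _
    · intro y hy
      have h2 : 1 ≤ Real.exp (-a) * Real.exp y := by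
        rw [← Real.exp_add]
        apply Real.one_le_exp
        linarith [hy.1]
      calc h (u * Real.exp y) = h (u * Real.exp y) * 1 := (mul_one _).symm
        _ ≤ h (u * Real.exp y) * (Real.exp (-a) * Real.exp y) := mul_le_mul_of_nonneg_left h2 (h0 _)
        _ = _ := by ring
  refine h1.trans ?_
  rw [intervalIntegral.integral_const_mul]
  have h2 : ∫ y in a..b, (h (u * Real.exp y) * Real.exp y) = ∫ t in (Real.exp a)..(Real.exp b), h (u * t) :=
    intervalIntegral.integral_comp_mul_deriv (f := Real.exp) (f' := Real.exp) (g := fun t => h (u * t))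
      (fun x _ => Real.hasDerivAt_exp x) Real.continuous_exp.continuousOn hQc
  rw [h2]
  have h3 : ∫ t in (Real.exp a)..(Real.exp b), h (u * t) ≤ ∫ t in (0 : ℝ)..(Real.exp b), h (u * t) := by
    apply intervalIntegral.integral_mono_interval (Real.exp_pos a).le (Real.exp_le_exp.2 hab) le_rfl
    · filter_upwards with t using h0 _
    · exact hQc.intervalIntegrable _ _
  have h4 : ∫ t in (0 : ℝ)..(Real.exp b), h (u * t) ≤ u⁻¹ * ((u * Real.exp b + 1) * I) := by
    rw [intervalIntegral.integral_comp_mul_left _ hu.ne', smul_eq_mul, mul_zero]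
    exact mul_le_mul_of_nonneg_left (per_int hc h0 hp hI (by positivity)) (by positivity)
  have h5 : u⁻¹ * ((u * Real.exp b + 1) * I) ≤ 2 * I * Real.exp b := by
    rw [inv_mul_le_iff₀ hu]
    have h6 : (u * Real.exp b + 1) * I ≤ (u * Real.exp b + u * Real.exp b) * I := mul_le_mul_of_nonneg_right (by linarith) hI0
    refine h6.trans (le_of_eq ?_)
    ring
  calc Real.exp (-a) * ∫ t in (Real.exp a)..(Real.exp b), h (u * t) ≤ Real.exp (-a) * (2 * I * Real.exp b) :=
        mul_le_mul_of_nonneg_left (h3.trans (h4.trans h5)) (Real.exp_pos _).le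
    _ = 2 * I * (Real.exp b * Real.exp (-a)) := by ring
    _ = 2 * I * Real.exp (b - a) := by rw [← Real.exp_add, sub_eq_add_neg]

/-! ### the shift operator -/

/-- the averaged shifts -/
def Sh {ι : Type} [Fintype ι] (p x : ι → ℝ) (f : ℝ → ℝ) : ℝ → ℝ := fun y => ∑ i, p i * f (y - x i)

variable {ι : Type} [Fintype ι] {p x r : ι → ℝ}

lemma sh_good (hp : ∀ i, 0 < p i) (hps : ∑ i, p i = 1) {f : ℝ → ℝ} (hc : Continuous f) (h0 : ∀ y, 0 ≤ f y) (h1 : ∀ y, f y ≤ 1) :
    Continuous (Sh p x f) ∧ (∀ y, 0 ≤ Sh p x f y) ∧ ∀ y, Sh p x f y ≤ 1 := by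
  refine ⟨?_, fun y => ?_, fun y => ?_⟩
  · unfold Sh
    exact continuous_finsetSum _ fun i _ => continuous_const.mul (hc.comp (continuous_id.sub continuous_const))
  · exact Finset.sum_nonneg fun i _ => mul_nonneg (hp i).le (h0 _)
  · rw [← hps]
    refine Finset.sum_le_sum fun i _ => ?_
    exact mul_le_of_le_one_right (hp i).le (h1 _)

lemma sh_iter (hp : ∀ i, 0 < p i) (hps : ∑ i, p i = 1) {f : ℝ → ℝ} (hc : Continuous f) (h0 : ∀ y, 0 ≤ f y) (h1 : ∀ y, f y ≤ 1)
    (n : ℕ) : Continuous ((Sh p x)^[n] f) ∧ (∀ y, 0 ≤ (Sh p x)^[n] f y) ∧ ∀ y, (Sh p x)^[n] f y ≤ 1 := by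
  induction n with
  | zero => exact ⟨hc, h0, h1⟩
  | succ n ih =>
    rw [Function.iterate_succ_apply']
    exact sh_good hp hps ih.1 ih.2.1 ih.2.2

lemma sh_int1 (hp : ∀ i, 0 < p i) (hps : ∑ i, p i = 1) {f : ℝ → ℝ} (hc : Continuous f) (h0 : ∀ y, 0 ≤ f y) (h1 : ∀ y, f y ≤ 1)
    {xm : ℝ} (hx : ∀ i, 0 ≤ x i ∧ x i ≤ xm) {a b : ℝ} :
    ∫ y in a..b, Sh p x f y ≤ (∫ y in a..b, f y) + xm := by
  have hi : ∀ a b, IntervalIntegrable f volume a b := fun a b => hc.intervalIntegrable a b
  unfold Sh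
  have hsum : ∀ i ∈ (univ : Finset ι), IntervalIntegrable (fun y => p i * f (y - x i)) volume a b := fun i _ =>
    (continuous_const.mul (hc.comp (continuous_id.sub continuous_const))).intervalIntegrable _ _
  rw [intervalIntegral.integral_finsetSum hsum]
  have key : ∀ i ∈ (univ : Finset ι), ∫ y in a..b, p i * f (y - x i) ≤ p i * ((∫ y in a..b, f y) + xm) := by
    intro i _
    rw [intervalIntegral.integral_const_mul]
    apply mul_le_mul_of_nonneg_left _ (hp i).le
    rw [intervalIntegral.integral_comp_sub_right]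
    have h2 : ∫ y in (a - x i)..(b - x i), f y = (∫ y in (a - x i)..a, f y) + (∫ y in a..b, f y) - ∫ y in (b - x i)..b, f y := by
      rw [intervalIntegral.integral_add_adjacent_intervals (hi _ _) (hi _ _),
        ← intervalIntegral.integral_add_adjacent_intervals (hi (a - x i) (b - x i)) (hi (b - x i) b)]
      ring
    have h3 : ∫ y in (a - x i)..a, f y ≤ ∫ _y in (a - x i)..a, (1 : ℝ) :=
      intervalIntegral.integral_mono_on (by linarith [(hx i).1]) (hi _ _) (continuous_const.intervalIntegrable _ _) fun y _ => h1 y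
    rw [intervalIntegral.integral_const, smul_eq_mul, mul_one] at h3
    have h4 : 0 ≤ ∫ y in (b - x i)..b, f y := intervalIntegral.integral_nonneg (by linarith [(hx i).1]) fun y _ => h0 y
    rw [h2]
    linarith [(hx i).2]
  refine (Finset.sum_le_sum key).trans ?_
  rw [← Finset.sum_mul, hps, one_mul]

lemma sh_int (hp : ∀ i, 0 < p i) (hps : ∑ i, p i = 1) {f : ℝ → ℝ} (hc : Continuous f) (h0 : ∀ y, 0 ≤ f y) (h1 : ∀ y, f y ≤ 1)
    {xm : ℝ} (hx : ∀ i, 0 ≤ x i ∧ x i ≤ xm) {a b : ℝ} (n : ℕ) :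
    ∫ y in a..b, (Sh p x)^[n] f y ≤ (∫ y in a..b, f y) + n * xm := by
  induction n with
  | zero => simp
  | succ n ih =>
    rw [Function.iterate_succ_apply']
    have h2 := sh_iter (x := x) hp hps hc h0 h1 n
    have h3 := sh_int1 hp hps h2.1 h2.2.1 h2.2.2 hx (a := a) (b := b)
    refine h3.trans ?_
    push_cast
    linarith

lemma ar_sh (hr : ∀ i, r i ≠ 0) (n : ℕ) : ∀ f : ℝ → ℝ, (∀ t, f (-t) = f t) →
    ∀ y, (Ar p r)^[n] f (Real.exp y) = (Sh p (fun i => -Real.log |r i|))^[n] (fun y => f (Real.exp y)) y := by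
  induction n with
  | zero => intro f _ y; rfl
  | succ n ih =>
    intro f hf y
    rw [Function.iterate_succ_apply, Function.iterate_succ_apply, ih]
    · refine congrFun (congrArg _ ?_) y
      funext y
      unfold Ar Sh
      refine Finset.sum_congr rfl fun i _ => ?_
      congr 1
      have h1 : |r i * Real.exp y| = Real.exp (y - -Real.log |r i|) := by
        rw [abs_mul, Real.abs_exp, sub_neg_eq_add, Real.exp_add, Real.exp_log (abs_pos.2 (hr i)), mul_comm]
      simp only
      rw [← h1]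
      rcases abs_choice (r i * Real.exp y) with h2 | h2
      · rw [h2]
      · rw [h2, hf]
    · intro t
      unfold Ar
      refine Finset.sum_congr rfl fun i _ => ?_
      rw [mul_neg, hf]

variable {B : ℕ} {κ u ρ Λ : ℝ} {Q : ℝ → ℝ}

/-- the Lyapunov bound -/
lemma Qs.lyap (h : Qs p r B κ u ρ Λ Q) {xm : ℝ} (hx : ∀ i, 0 ≤ -Real.log |r i| ∧ -Real.log |r i| ≤ xm) {a b : ℝ} (hab : a ≤ b) :
    κ * ∫ y in a..b, dn (u * Real.exp y) ^ 2 * Q (ρ * Real.exp y) ≤ B * xm := by
  have hQc := h.cont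
  have hfc : Continuous fun y => Q (Real.exp y) := hQc.comp Real.continuous_exp
  have h1 : ∀ y, κ * (dn (u * Real.exp y) ^ 2 * Q (ρ * Real.exp y)) ≤
      (Sh p (fun i => -Real.log |r i|))^[B] (fun y => Q (Real.exp y)) y - Q (Real.exp y) := by
    intro y
    have := h.k1 (Real.exp y)
    rw [ar_sh h.r_ne B Q h.neg y] at this
    linarith
  have h2 := sh_iter (x := fun i => -Real.log |r i|) h.p_pos h.psum hfc (fun y => h.nn _) (fun y => h.le1 _) B
  have hdc : Continuous fun y => dn (u * Real.exp y) ^ 2 * Q (ρ * Real.exp y) :=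
    ((dn_cont.comp (continuous_const.mul Real.continuous_exp)).pow 2).mul (hQc.comp (continuous_const.mul Real.continuous_exp))
  rw [← intervalIntegral.integral_const_mul]
  have h3 : ∫ y in a..b, κ * (dn (u * Real.exp y) ^ 2 * Q (ρ * Real.exp y)) ≤
      ∫ y in a..b, ((Sh p (fun i => -Real.log |r i|))^[B] (fun y => Q (Real.exp y)) y - Q (Real.exp y)) :=
    intervalIntegral.integral_mono_on hab ((continuous_const.mul hdc).intervalIntegrable _ _)
      ((h2.1.sub hfc).intervalIntegrable _ _) fun y _ => h1 y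
  refine h3.trans ?_
  rw [intervalIntegral.integral_sub (h2.1.intervalIntegrable _ _) (hfc.intervalIntegrable _ _)]
  have h4 := sh_int h.p_pos h.psum hfc (fun y => h.nn _) (fun y => h.le1 _) hx (a := a) (b := b) B
  linarith

/-- the mass of far windows tends to zero -/
lemma Qs.window (h : Qs p r B κ u ρ Λ Q) {xm : ℝ} (hx : ∀ i, 0 ≤ -Real.log |r i| ∧ -Real.log |r i| ≤ xm) {W η : ℝ}
    (hW : 0 ≤ W) (hη : 0 < η) : ∃ a0, ∀ a, a0 ≤ a → ∫ y in a..(a + W), Q (Real.exp y) ≤ η := by
  have hκ := h.κ_pos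
  have hu := h.u_pos
  have hQc := h.cont
  have hdc : Continuous fun y => dn (u * Real.exp y) ^ 2 * Q (ρ * Real.exp y) :=
    ((dn_cont.comp (continuous_const.mul Real.continuous_exp)).pow 2).mul (hQc.comp (continuous_const.mul Real.continuous_exp))
  have hd0 : ∀ y, 0 ≤ dn (u * Real.exp y) ^ 2 * Q (ρ * Real.exp y) := fun y => mul_nonneg (sq_nonneg _) (h.nn _)
  have hdi : ∀ a b, IntervalIntegrable (fun y => dn (u * Real.exp y) ^ 2 * Q (ρ * Real.exp y)) volume a b :=
    fun a b => hdc.intervalIntegrable a b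
  obtain ⟨δ, hδ⟩ : ∃ δ : ℝ, δ = min (1 / 4) (η / (8 * Real.exp W)) := ⟨_, rfl⟩
  have hδ0 : 0 < δ := by rw [hδ]; positivity
  have hδ1 : δ < 1 / 2 := by
    have : δ ≤ 1 / 4 := by rw [hδ]; exact min_le_left _ _
    linarith
  have hδ2 : 2 * (2 * δ) * Real.exp W ≤ η / 2 := by
    have h1 : δ ≤ η / (8 * Real.exp W) := by rw [hδ]; exact min_le_right _ _
    have h2 := mul_le_mul_of_nonneg_right h1 (Real.exp_pos W).le
    have h3 : η / (8 * Real.exp W) * Real.exp W = η / 8 := by
      have := Real.exp_ne_zero W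
      field_simp
    linarith
  -- the Cauchy property
  obtain ⟨Jf, hJf⟩ : ∃ Jf : ℝ → ℝ, Jf = fun b => ∫ y in (0 : ℝ)..b, dn (u * Real.exp y) ^ 2 * Q (ρ * Real.exp y) := ⟨_, rfl⟩
  have hJb : BddAbove (Jf '' Set.Ici 0) := by
    refine ⟨B * xm / κ, ?_⟩
    rintro _ ⟨b, hb, rfl⟩
    have h1 := h.lyap hx (show (0 : ℝ) ≤ b from hb)
    rw [le_div_iff₀ hκ, hJf, mul_comm]
    exact h1
  have hJn : (Jf '' Set.Ici 0).Nonempty := ⟨_, 0, Set.mem_Ici.2 le_rfl, rfl⟩
  obtain ⟨_, ⟨b0, hb0, rfl⟩, hb1⟩ := exists_lt_of_lt_csSup hJn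
    (show sSup (Jf '' Set.Ici 0) - δ ^ 2 * (η / 2) < sSup (Jf '' Set.Ici 0) by
      have : 0 < δ ^ 2 * (η / 2) := by positivity
      linarith)
  have hb0' : (0 : ℝ) ≤ b0 := hb0
  have hcau : ∀ a, b0 ≤ a → ∫ y in a..(a + W), dn (u * Real.exp y) ^ 2 * Q (ρ * Real.exp y) ≤ δ ^ 2 * (η / 2) := by
    intro a ha
    have h1 : Jf (a + W) ≤ sSup (Jf '' Set.Ici 0) :=
      le_csSup hJb ⟨a + W, Set.mem_Ici.2 (by linarith), rfl⟩
    have h2 : Jf b0 ≤ Jf a := by
      rw [hJf]
      apply intervalIntegral.integral_mono_interval le_rfl hb0' ha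
      · filter_upwards with y using hd0 y
      · exact hdi _ _
    have h3 : Jf (a + W) = Jf a + ∫ y in a..(a + W), dn (u * Real.exp y) ^ 2 * Q (ρ * Real.exp y) := by
      rw [hJf]
      exact (intervalIntegral.integral_add_adjacent_intervals (hdi _ _) (hdi _ _)).symm
    linarith
  have hmain : ∀ a, max b0 (-Real.log u) ≤ a → ∫ y in a..(a + W), Q (ρ * Real.exp y) ≤ η := by
    intro a ha
    have ha1 := (le_max_left _ _).trans ha
    have ha2 := (le_max_right _ _).trans ha
    have h1 := exp_int (bp_cont δ) (bp_nn δ) (bp_per δ) (bp_int hδ0 hδ1) hu (show a ≤ a + W by linarith) (by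
      have h2 : Real.exp (-Real.log u) ≤ Real.exp (a + W) := Real.exp_le_exp.2 (by linarith)
      rw [Real.exp_neg, Real.exp_log hu] at h2
      calc (1 : ℝ) = u * u⁻¹ := (mul_inv_cancel₀ hu.ne').symm
        _ ≤ u * Real.exp (a + W) := mul_le_mul_of_nonneg_left h2 hu.le)
    rw [add_sub_cancel_left] at h1
    have h2 : ∫ y in a..(a + W), Q (ρ * Real.exp y) ≤
        ∫ y in a..(a + W), (1 / δ ^ 2 * (dn (u * Real.exp y) ^ 2 * Q (ρ * Real.exp y)) + bp δ (u * Real.exp y)) := by
      apply intervalIntegral.integral_mono_on (by linarith)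
      · exact (hQc.comp (continuous_const.mul Real.continuous_exp)).intervalIntegrable _ _
      · exact ((continuous_const.mul hdc).add ((bp_cont δ).comp (continuous_const.mul Real.continuous_exp))).intervalIntegrable _ _
      · intro y _
        have h3 := bp_one δ (u * Real.exp y)
        have h4 := h.nn (ρ * Real.exp y)
        have h5 := h.le1 (ρ * Real.exp y)
        have h6 := bp_nn δ (u * Real.exp y)
        calc Q (ρ * Real.exp y) = 1 * Q (ρ * Real.exp y) := (one_mul _).symm
          _ ≤ (dn (u * Real.exp y) ^ 2 / δ ^ 2 + bp δ (u * Real.exp y)) * Q (ρ * Real.exp y) := mul_le_mul_of_nonneg_right h3 h4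
          _ = 1 / δ ^ 2 * (dn (u * Real.exp y) ^ 2 * Q (ρ * Real.exp y)) + bp δ (u * Real.exp y) * Q (ρ * Real.exp y) := by ring
          _ ≤ _ := by linarith [mul_le_of_le_one_right h6 h5]
    have hi1 : IntervalIntegrable (fun y => 1 / δ ^ 2 * (dn (u * Real.exp y) ^ 2 * Q (ρ * Real.exp y))) volume a (a + W) :=
      (continuous_const.mul hdc).intervalIntegrable _ _
    have hi2 : IntervalIntegrable (fun y => bp δ (u * Real.exp y)) volume a (a + W) :=
      ((bp_cont δ).comp (continuous_const.mul Real.continuous_exp)).intervalIntegrable _ _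
    rw [intervalIntegral.integral_add hi1 hi2, intervalIntegral.integral_const_mul] at h2
    have h3 := mul_le_mul_of_nonneg_left (hcau a ha1) (show 0 ≤ 1 / δ ^ 2 by positivity)
    have h4 : 1 / δ ^ 2 * (δ ^ 2 * (η / 2)) = η / 2 := by field_simp
    linarith
  refine ⟨max b0 (-Real.log u) + Real.log |ρ|, fun a ha => ?_⟩
  have h1 := hmain (a - Real.log |ρ|) (by linarith)
  have h2 : ∀ y, Q (ρ * Real.exp (y - Real.log |ρ|)) = Q (Real.exp y) := by
    intro y
    apply h.abs2
    rw [abs_mul, Real.abs_exp, Real.abs_exp, Real.exp_sub, Real.exp_log (abs_pos.2 h.ρ_ne)]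
    have := abs_pos.2 h.ρ_ne
    field_simp
  have h3 : ∫ y in a..(a + W), Q (Real.exp y) = ∫ y in (a - Real.log |ρ|)..(a - Real.log |ρ| + W), Q (ρ * Real.exp y) := by
    have h4 := intervalIntegral.integral_comp_sub_right (a := a) (b := a + W) (fun y => Q (ρ * Real.exp y)) (Real.log |ρ|)
    simp only [h2] at h4
    rw [h4]
    congr 1
    ring
  rw [h3]
  exact h1

/-- the dense case -/
theorem Qs.dense (h : Qs p r B κ u ρ Λ Q)
    (hd : Dense (AddSubgroup.closure (Set.range fun i => -Real.log |r i|) : Set ℝ)) : Tendsto Q atTop (𝓝 0) := by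
  obtain ⟨r0, r1, h0, hr1, hr10, hr⟩ := h.consts
  obtain ⟨x, hx⟩ : ∃ x : ι → ℝ, x = fun i => -Real.log |r i| := ⟨_, rfl⟩
  rw [← hx] at hd
  obtain ⟨c, hc⟩ : ∃ c : ℝ, c = -Real.log r1 := ⟨_, rfl⟩
  obtain ⟨xm, hxm⟩ : ∃ xm : ℝ, xm = -Real.log r0 := ⟨_, rfl⟩
  have hc0 : 0 < c := by
    rw [hc]
    have := Real.log_neg hr10 hr1
    linarith
  have hxc : ∀ i, c ≤ x i := by
    intro i
    rw [hc, hx]
    simp only
    have := Real.log_le_log (h0.trans_le (hr i).1) (hr i).2
    linarith
  have hxx : ∀ i, x i ≤ xm := by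
    intro i
    rw [hxm, hx]
    simp only
    have := Real.log_le_log h0 (hr i).1
    linarith
  have hxm0 : 0 < xm := by
    have := h.nonempty
    exact hc0.trans_le ((hxc this.some).trans (hxx this.some))
  have hQc : Continuous Q := h.cont
  have main : ∀ η : ℝ, 0 < η → ∀ᶠ y in atTop, Q (Real.exp y) ≤ η := by
    intro η hη
    obtain ⟨Lw, hLw⟩ : ∃ Lw : ℝ, Lw = xm + 2 := ⟨_, rfl⟩
    have hLw0 : 0 < Lw := by rw [hLw]; positivity
    obtain ⟨a, ha⟩ := h.window (xm := xm) (fun i => ⟨by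
      have := hxc i
      rw [hx] at this
      simp only at this
      linarith, by
      have := hxx i
      rw [hx] at this
      exact this⟩) hLw0.le (show 0 < c * η / 2 by positivity)
    obtain ⟨X0, hX0⟩ : ∃ X0 : ℝ, X0 = a + xm + 1 := ⟨_, rfl⟩
    obtain ⟨b, hb⟩ : ∃ b : ℝ, b = X0 + 1 := ⟨_, rfl⟩
    have hab : b = a + Lw := by rw [hb, hX0, hLw]; ring
    have hab' : a ≤ b := by linarith
    have hI2 : ∫ y in a..b, Q (Real.exp y) ≤ c * η / 2 := by
      rw [hab]
      exact ha a le_rfl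
    obtain ⟨χ, hχ⟩ : ∃ χ : ℝ → ℝ, χ = fun y => max 0 (min 1 (min (y - a) (b - y))) := ⟨_, rfl⟩
    have hχ0 : ∀ y, 0 ≤ χ y := by intro y; rw [hχ]; exact le_max_left _ _
    have hχ1 : ∀ y, χ y ≤ 1 := by
      intro y
      rw [hχ]
      exact max_le zero_le_one (min_le_left _ _)
    have hχc : Continuous χ := by
      rw [hχ]
      fun_prop
    have hχa : ∀ y, y ≤ a → χ y = 0 := by
      intro y hy
      rw [hχ]
      apply max_eq_left
      exact (min_le_right _ _).trans ((min_le_left _ _).trans (by linarith))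
    have hχb : ∀ y, b ≤ y → χ y = 0 := by
      intro y hy
      rw [hχ]
      apply max_eq_left
      exact (min_le_right _ _).trans ((min_le_right _ _).trans (by linarith))
    have hχm : ∀ y, X0 - xm ≤ y → y ≤ X0 → χ y = 1 := by
      intro y hy1 hy2
      rw [hχ]
      simp only
      rw [min_eq_left (le_min (by linarith) (by linarith)), max_eq_right zero_le_one]
    obtain ⟨g, hg⟩ : ∃ g : ℝ → ℝ, g = fun y => Q (Real.exp y) * χ y := ⟨_, rfl⟩
    have hgc : Continuous g := by
      rw [hg]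
      exact (hQc.comp Real.continuous_exp).mul hχc
    have hg0 : ∀ y, 0 ≤ g y := by
      intro y
      rw [hg]
      exact mul_nonneg (h.nn _) (hχ0 y)
    have hgQ : ∀ y, g y ≤ Q (Real.exp y) := by
      intro y
      rw [hg]
      exact mul_le_of_le_one_right (h.nn _) (hχ1 y)
    have hgout : ∀ y, (y ≤ a ∨ b ≤ y) → g y = 0 := by
      intro y hy
      rw [hg]
      simp only
      rcases hy with hy | hy
      · rw [hχa y hy, mul_zero]
      · rw [hχb y hy, mul_zero]
    have hgcs : HasCompactSupport g := by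
      apply HasCompactSupport.intro (isCompact_Icc (a := a) (b := b))
      intro y hy
      apply hgout
      by_contra hcon
      push Not at hcon
      exact hy ⟨hcon.1.le, hcon.2.le⟩
    have hgi : Integrable g := hgc.integrable_of_hasCompactSupport hgcs
    have hgu : UniformContinuous g := hgcs.uniformContinuous_of_continuous hgc
    obtain ⟨L, hL⟩ := exists_nat_gt (Lw / c)
    rw [div_lt_iff₀ hc0] at hL
    have hgs : ∀ y, y ∉ Set.Ico a (a + L * c) → g y = 0 := by
      intro y hy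
      apply hgout
      by_contra hcon
      push Not at hcon
      exact hy ⟨hcon.1.le, by linarith [hcon.2]⟩
    have hgint : ∫ y, g y ≤ c * η / 2 := by
      have h1 : ∫ y in a..b, g y = ∫ y, g y := by
        apply intervalIntegral.integral_eq_integral_of_support_subset
        intro y hy
        by_contra hcon
        apply hy
        apply hgout
        by_contra hcon2
        push Not at hcon2
        exact hcon ⟨hcon2.1, hcon2.2.le⟩
      rw [← h1]
      refine le_trans ?_ hI2
      apply intervalIntegral.integral_mono_on hab'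
      · exact hgc.intervalIntegrable _ _
      · exact (hQc.comp Real.continuous_exp).intervalIntegrable _ _
      · intro y _
        exact hgQ y
    have hcomp := Vo_comp (P := fun i => ENNReal.ofReal (p i)) (M := fun y => ENNReal.ofReal (Q (Real.exp y)))
      (f := fun y => ENNReal.ofReal (g y)) (X0 := X0) hc0 hxc hxx ?_ ?_
    · have hlim := Vo_limsup h.p_pos h.psum hc0 hxc hxx hd hgc hgu hg0 (Bd := 1)
        (fun y => (hgQ y).trans (h.le1 _)) hgs hgi (show 0 < η / 2 by positivity)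
      filter_upwards [hlim, eventually_ge_atTop (X0 - xm)] with y hy1 hy2
      have h1 := hcomp y hy2
      have hP1 : ∑ i, ENNReal.ofReal (p i) = 1 := by
        rw [← ENNReal.ofReal_sum_of_nonneg (fun i _ => (h.p_pos i).le), h.psum, ENNReal.ofReal_one]
      have h2 : Vo (fun i => ENNReal.ofReal (p i)) x (fun y => ENNReal.ofReal (g y)) y ≤ L * 1 := by
        apply Vo_bdd hP1 hc0 hxc (m := a)
        intro y
        by_cases hy : y ∈ Set.Ico a (a + L * c)
        · rw [Set.indicator_of_mem hy, ← ENNReal.ofReal_one]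
          exact ENNReal.ofReal_le_ofReal ((hgQ y).trans (h.le1 _))
        · rw [Set.indicator_of_notMem hy, hgs y hy, ENNReal.ofReal_zero]
      have h3 : Vo (fun i => ENNReal.ofReal (p i)) x (fun y => ENNReal.ofReal (g y)) y ≠ ∞ :=
        ne_top_of_le_ne_top (by rw [mul_one]; exact ENNReal.natCast_ne_top L) h2
      have h4 := ENNReal.toReal_mono h3 h1
      rw [ENNReal.toReal_ofReal (h.nn _)] at h4
      refine h4.trans (hy1.trans ?_)
      have h5 : (∫ y, g y) / c ≤ η / 2 := by
        rw [div_le_iff₀ hc0]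
        linarith
      linarith
    · intro y
      have h1 := h.q1 (Real.exp y)
      have h2 : ∀ i, Q (r i * Real.exp y) = Q (Real.exp (y - x i)) := by
        intro i
        apply h.abs2
        rw [abs_mul, Real.abs_exp, Real.abs_exp, Real.exp_sub, hx]
        simp only
        rw [Real.exp_neg, Real.exp_log (abs_pos.2 (h.r_ne i))]
        field_simp
      unfold Ar at h1
      simp only [h2] at h1
      refine (ENNReal.ofReal_le_ofReal h1).trans (le_of_eq ?_)
      rw [ENNReal.ofReal_sum_of_nonneg (fun i _ => mul_nonneg (h.p_pos i).le (h.nn _))]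
      refine Finset.sum_congr rfl fun i _ => ?_
      rw [ENNReal.ofReal_mul (h.p_pos i).le]
    · intro y hy1 hy2
      rw [hg]
      simp only
      rw [hχm y hy1 hy2, mul_one]
  have h1 : Tendsto (fun y => Q (Real.exp y)) atTop (𝓝 0) := by
    rw [Metric.tendsto_nhds]
    intro ε hε
    filter_upwards [main (ε / 2) (by positivity)] with y hy
    rw [Real.dist_eq, sub_zero, abs_of_nonneg (h.nn _)]
    linarith
  refine (h1.comp Real.tendsto_log_atTop).congr' ?_
  filter_upwards [eventually_gt_atTop 0] with t ht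
  simp only [Function.comp]
  rw [Real.exp_log ht]

end Pool.Agent.J4H75.CM
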