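import Pool.Agent.J4H75.CM.Ad
import Pool.Agent.J4H75.CN.DigT

set_option autoImplicit false

/-! The property `Few` for a family of measures. -/

namespace Pool.Agent.J4H75.CM

open MeasureTheory Finset Filter Topology
open scoped Real ENNReal
open Pool.Agent.J4H40.Ca (dn dn_nn dn_half)
open Pool.Agent.J4H75.PN (ee)
open Pool.Agent.J4H75.CN (WS ws_sub Few Stg Gp stgL card_two Qf Qf_le Qf_abs few_unif stg_ex)

/-- the property `Few` for a family from the good positions -/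
lemma few_fam {ν : ℕ → Measure ℝ} [hprob : ∀ n, IsProbabilityMeasure (ν n)] {β q δ : ℝ} (hβ : 1 < β) (hq : 1 < q)
    (hS : ∀ K W, ∃ len : ℕ, 1 ≤ len ∧ Stg β q δ K W len) {u : ℝ} (hu : 0 < u)
    (hG : ∀ ε : ℝ, 0 < ε → ∃ L, ∀ n τ, Gp β δ L (u * τ) → Qf (ν n) τ ≤ ε) : ∃ T : ℕ → ℝ, ∀ n, Few q T (ν n) := by
  have hβ0 : 0 < β := by linarith
  have hq0 : 0 < q := by linarith
  have hq1 : 0 < q - 1 := by linarith
  choose L hL using fun K : ℕ => hG (1 / ((K : ℝ) + 1)) (by positivity)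
  choose R hR using fun K => stgL hβ (hS K) (L K)
  refine ⟨fun K => β ^ (R K) / (u * (q - 1)), ?_⟩
  intro n K θ τ0 hθ
  simp only at hθ
  classical
  obtain ⟨S, hSd⟩ : ∃ S : Finset ℕ, S = (range (K + 1)).filter fun m => ¬ Gp β δ (L K) (u * (θ * q ^ m - τ0)) := ⟨_, rfl⟩
  have hcard : S.card ≤ 2 := by
    apply card_two
    intro m1 k1 m2 k2 m3 k3 h12 h23
    rw [hSd, Finset.mem_filter, Finset.mem_range] at k1 k2 k3
    have h5 : β ^ (R K) ≤ |u * θ| * (q - 1) * q ^ m1 := by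
      rw [div_le_iff₀ (by positivity)] at hθ
      calc β ^ (R K) ≤ |θ| * (u * (q - 1)) := hθ
        _ = (u * |θ| * (q - 1)) * 1 := by ring
        _ ≤ (u * |θ| * (q - 1)) * q ^ m1 := mul_le_mul_of_nonneg_left (one_le_pow₀ hq.le) (by positivity)
        _ = |u * θ| * (q - 1) * q ^ m1 := by rw [abs_mul, abs_of_pos hu]
    obtain ⟨m, hm, hmG⟩ := hR K (u * θ) (u * τ0) m1 m2 m3 h12 h23 (by omega) h5
    have e : u * θ * q ^ m - u * τ0 = u * (θ * q ^ m - τ0) := by ring
    rw [e] at hmG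
    rw [Finset.mem_insert, Finset.mem_insert, Finset.mem_singleton] at hm
    rcases hm with rfl | rfl | rfl
    · exact k1.2 hmG
    · exact k2.2 hmG
    · exact k3.2 hmG
  have hle : ∀ m ∈ range (K + 1), ‖∫ y, ee ((θ * q ^ m - τ0) * y) ∂(ν n)‖ ≤ (if m ∈ S then (1 : ℝ) else 0) + 1 / ((K : ℝ) + 1) := by
    intro m hm
    have hK0 : (0 : ℝ) < 1 / ((K : ℝ) + 1) := by positivity
    by_cases h2 : m ∈ S
    · rw [if_pos h2]
      have : ‖∫ y, ee ((θ * q ^ m - τ0) * y) ∂(ν n)‖ ≤ 1 := Qf_le _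
      linarith
    · rw [if_neg h2, zero_add]
      rw [hSd, Finset.mem_filter] at h2
      push Not at h2
      exact hL K _ _ (h2 hm)
  refine (Finset.sum_le_sum hle).trans ?_
  rw [Finset.sum_add_distrib, Finset.sum_const, card_range, nsmul_eq_mul, Finset.sum_ite_mem, Finset.sum_const,
    nsmul_eq_mul, mul_one]
  have c1 : (((range (K + 1) ∩ S).card : ℕ) : ℝ) ≤ 2 := by
    have h1 := (Finset.card_le_card (Finset.inter_subset_right (s₁ := range (K + 1)) (s₂ := S))).trans hcard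
    exact_mod_cast h1
  have c2 : ((K + 1 : ℕ) : ℝ) * (1 / ((K : ℝ) + 1)) = 1 := by
    push_cast
    field_simp
  linarith

variable {ι : Type} [Fintype ι] {p r : ι → ℝ} {B : ℕ} {κ u ρ Λ : ℝ} {Q : ℝ → ℝ}

/-- a large number of good positions makes `Q` small in the lattice case -/
lemma Qs.lat_gp (h : Qs p r B κ u ρ Λ Q) {β : ℝ} (hβ : 1 < β) {k : ι → ℕ} (hk : ∀ i, 1 ≤ k i ∧ |r i| = 1 / β ^ (k i))
    (hn : ∃ B ∈ WS k, B + 1 ∈ WS k) {δ : ℝ} (hδ : 0 < δ) {ε : ℝ} (hε : 0 < ε) :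
    ∃ L, ∀ τ, Gp β δ L (u * τ) → Q τ ≤ ε := by
  obtain ⟨s0, a', ha', hdec⟩ := h.lat hβ hk hn
  obtain ⟨I, hI⟩ := exists_nat_gt (-Real.log ε / (a' * δ ^ 2))
  refine ⟨I + s0, fun τ hτ => ?_⟩
  obtain ⟨F, hFc, hF⟩ := hτ
  have e1 := hdec τ (F.sup id + 2)
  refine e1.trans ?_
  rw [← Real.le_log_iff_exp_le hε]
  have e2 : (I : ℝ) * δ ^ 2 ≤ ∑ j ∈ range (F.sup id + 2), dn (u * τ / β ^ (s0 + j)) ^ 2 := by
    obtain ⟨F1, hF1⟩ : ∃ F1, F1 = F.filter fun j => s0 ≤ j := ⟨_, rfl⟩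
    have hc : I ≤ F1.card := by
      have h13 : F.card = F1.card + (F.filter fun j => ¬ s0 ≤ j).card := by
        rw [hF1]
        exact (Finset.card_filter_add_card_filter_not _).symm
      have h14 : F.filter (fun j => ¬ s0 ≤ j) ⊆ range s0 := by
        intro i hi
        rw [Finset.mem_filter] at hi
        exact Finset.mem_range.2 (by omega)
      have h15 := Finset.card_le_card h14
      rw [card_range] at h15
      omega
    have hsum : ∑ j ∈ F1, dn (u * τ / β ^ (j + 1)) ^ 2 ≤ ∑ j ∈ range (F.sup id + 2), dn (u * τ / β ^ (s0 + j)) ^ 2 := by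
      have e3 : ∑ j ∈ F1, dn (u * τ / β ^ (j + 1)) ^ 2 =
          ∑ i ∈ F1.image (fun j => j + 1 - s0), dn (u * τ / β ^ (s0 + i)) ^ 2 := by
        rw [Finset.sum_image]
        · refine Finset.sum_congr rfl fun j hj => ?_
          rw [hF1, Finset.mem_filter] at hj
          have : s0 + (j + 1 - s0) = j + 1 := by omega
          rw [this]
        · intro x hx y hy hxy
          rw [Finset.mem_coe, hF1, Finset.mem_filter] at hx hy
          simp only at hxy
          omega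
      rw [e3]
      apply Finset.sum_le_sum_of_subset_of_nonneg
      · intro i hi
        obtain ⟨j, hj, rfl⟩ := Finset.mem_image.1 hi
        rw [hF1, Finset.mem_filter] at hj
        have h1 : j ≤ F.sup id := Finset.le_sup (f := id) hj.1
        exact Finset.mem_range.2 (by omega)
      · intro i _ _
        positivity
    refine le_trans ?_ hsum
    have e4 : ∑ j ∈ F1, δ ^ 2 ≤ ∑ j ∈ F1, dn (u * τ / β ^ (j + 1)) ^ 2 := by
      refine Finset.sum_le_sum fun j hj => ?_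
      rw [hF1, Finset.mem_filter] at hj
      exact pow_le_pow_left₀ hδ.le (hF j hj.1) 2
    refine le_trans ?_ e4
    rw [Finset.sum_const, nsmul_eq_mul]
    apply mul_le_mul_of_nonneg_right _ (by positivity)
    exact_mod_cast hc
  rw [div_lt_iff₀ (by positivity)] at hI
  have e3 := mul_le_mul_of_nonneg_left e2 ha'.le
  nlinarith

/-- decay of the majorant -/
lemma few_dec {ν : ℕ → Measure ℝ} [hprob : ∀ n, IsProbabilityMeasure (ν n)] (hν : ∀ n t, Qf (ν n) t ≤ Q t)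
    (hQ : Tendsto Q atTop (𝓝 0)) {q : ℝ} (hq : 1 < q) : ∃ T : ℕ → ℝ, ∀ n, Few q T (ν n) := by
  have h1 : ∀ K : ℕ, ∃ T0 : ℝ, ∀ t, T0 ≤ |t| → Q |t| ≤ 1 / ((K : ℝ) + 1) := by
    intro K
    obtain ⟨T0, hT0⟩ := eventually_atTop.1 (hQ.eventually (gt_mem_nhds (show (0 : ℝ) < 1 / ((K : ℝ) + 1) by positivity)))
    exact ⟨T0, fun t ht => (hT0 _ ht).le⟩
  choose T0 hT0 using h1
  refine ⟨fun K => 2 * |T0 K| / (q - 1) + 1, fun n => ?_⟩
  apply few_unif hq T0
  intro K t ht
  rw [← Qf_abs]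
  exact (hν n _).trans (hT0 K t ht)

/-- **the property `Few` for the whole family** -/
theorem Qs.few (h : Qs p r B κ u ρ Λ Q) {ν : ℕ → Measure ℝ} [hprob : ∀ n, IsProbabilityMeasure (ν n)]
    (hν : ∀ n t, Qf (ν n) t ≤ Q t) {q : ℝ} (hq : 1 < q) (hT : Transcendental ℚ q) : ∃ T : ℕ → ℝ, ∀ n, Few q T (ν n) := by
  rcases AddSubgroup.dense_or_cyclic (AddSubgroup.closure (Set.range fun i => -Real.log |r i|)) with hd | ⟨a, ha⟩
  · exact few_dec hν (h.dense hd) hq
  · obtain ⟨x, hx⟩ : ∃ x : ι → ℝ, x = fun i => -Real.log |r i| := ⟨_, rfl⟩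
    rw [← hx] at ha
    have hx0 : ∀ i, 0 < x i := by
      intro i
      rw [hx]
      simp only
      have := Real.log_neg (abs_pos.2 (h.r_ne i)) (h.r_lt i)
      linarith
    have hm : ∀ i, ∃ m : ℤ, m • a = x i := by
      intro i
      have h1 : x i ∈ AddSubgroup.closure (Set.range x) := AddSubgroup.subset_closure ⟨i, rfl⟩
      rw [ha, AddSubgroup.mem_closure_singleton] at h1
      exact h1
    choose m hm using hm
    obtain ⟨i0⟩ := h.nonempty
    have ha0 : a ≠ 0 := by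
      rintro rfl
      have := hm i0
      rw [smul_zero] at this
      exact (hx0 i0).ne this
    have hb0 : 0 < |a| := abs_pos.2 ha0
    obtain ⟨k, hk⟩ : ∃ k : ι → ℕ, k = fun i => (m i).natAbs := ⟨_, rfl⟩
    have hkx : ∀ i, x i = k i * |a| := by
      intro i
      rw [← abs_of_pos (hx0 i), ← hm i, hk, zsmul_eq_mul, abs_mul]
      simp only [Nat.cast_natAbs, Int.cast_abs]
    have hk1 : ∀ i, 1 ≤ k i := by
      intro i
      by_contra hc
      have h1 : k i = 0 := by omega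
      have h2 := hkx i
      rw [h1, Nat.cast_zero, zero_mul] at h2
      exact (hx0 i).ne' h2
    obtain ⟨β, hβ⟩ : ∃ β : ℝ, β = Real.exp |a| := ⟨_, rfl⟩
    have hβ1 : 1 < β := by
      rw [hβ]
      exact Real.one_lt_exp_iff.2 hb0
    have hkr : ∀ i, 1 ≤ k i ∧ |r i| = 1 / β ^ (k i) := by
      intro i
      refine ⟨hk1 i, ?_⟩
      rw [hβ, ← Real.exp_nat_mul, ← hkx, hx, one_div, ← Real.exp_neg, neg_neg, Real.exp_log (abs_pos.2 (h.r_ne i))]
    have hword : ∀ w : List ι, (w.map x).sum = ((w.map k).sum : ℕ) * |a| := by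
      intro w
      induction w with
      | nil => simp
      | cons i w ih =>
        rw [List.map_cons, List.sum_cons, ih, List.map_cons, List.sum_cons, hkx]
        push_cast
        ring
    have hn : ∃ B ∈ WS k, B + 1 ∈ WS k := by
      have h1 : |a| ∈ AddSubgroup.closure (Set.range x) := by
        rw [ha]
        rcases abs_choice a with h2 | h2
        · rw [h2]
          exact AddSubgroup.subset_closure rfl
        · rw [h2]
          exact neg_mem (AddSubgroup.subset_closure rfl)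
      obtain ⟨A, ⟨w, hw⟩, B, ⟨w', hw'⟩, hAB⟩ := ws_sub h1
      refine ⟨(w'.map k).sum, ⟨w', rfl⟩, ⟨w, ?_⟩⟩
      rw [← hw, ← hw', hword, hword] at hAB
      have h2 : (((w.map k).sum : ℕ) : ℝ) = ((w'.map k).sum : ℕ) + 1 := by
        have h3 : (((w.map k).sum : ℕ) : ℝ) * |a| = (((w'.map k).sum : ℕ) + 1) * |a| := by linarith
        exact mul_right_cancel₀ hb0.ne' h3
      exact_mod_cast h2
    by_cases hβA : IsAlgebraic ℚ β
    · obtain ⟨δ, hδ0, _, hS⟩ := stg_ex hβ1 hβA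
      apply few_fam hβ1 hq (hS q hq hT) h.u_pos
      intro ε hε
      obtain ⟨L, hL⟩ := h.lat_gp hβ1 hkr hn hδ0 hε
      exact ⟨L, fun n τ hτ => (hν n τ).trans (hL τ hτ)⟩
    · exact few_dec hν (h.lat_tr hβ1 hβA hkr hn) hq

end Pool.Agent.J4H75.CM
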