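import Pool.Agent.J4H75.CM.Af

set_option autoImplicit false

/-! Random series with independent affine maps. -/

namespace Pool.Agent.J4H75.CM

open MeasureTheory ProbabilityTheory Finset Filter Topology
open scoped Real ENNReal
open Pool.Agent.J4H40.Ca (dn dn_nn dn_half ee_cont two_atoms dn_mul)
open Pool.Agent.J4H75.PN (ee norm_ee ee_add)
open Pool.Agent.J4H75.CN (Qf Qf_le ee_lip)

section series

variable {Ω : Type} {ι : Type}

/-- products of ratios -/
noncomputable def pr (r : ι → ℝ) (I : ℕ → Ω → ι) (n m : ℕ) (ω : Ω) : ℝ := ∏ l ∈ range m, r (I (n + l) ω)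

/-- partial sums -/
noncomputable def tr (r : ι → ℝ) (I : ℕ → Ω → ι) (V : ℕ → Ω → ℝ) (n m : ℕ) (ω : Ω) : ℝ :=
  ∑ l ∈ range m, pr r I n l ω * V (n + l) ω

/-- the tails -/
noncomputable def tl (r : ι → ℝ) (I : ℕ → Ω → ι) (V : ℕ → Ω → ℝ) (n : ℕ) (ω : Ω) : ℝ :=
  ∑' l, pr r I n l ω * V (n + l) ω

variable {r : ι → ℝ} {I : ℕ → Ω → ι} {V : ℕ → Ω → ℝ} {r0 r1 D : ℝ}

lemma pr_zero (n : ℕ) (ω : Ω) : pr r I n 0 ω = 1 := by unfold pr; simp

lemma pr_succ (n m : ℕ) (ω : Ω) : pr r I n (m + 1) ω = pr r I n m ω * r (I (n + m) ω) := by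
  unfold pr
  rw [Finset.prod_range_succ]

lemma pr_add (n m l : ℕ) (ω : Ω) : pr r I n (m + l) ω = pr r I n m ω * pr r I (n + m) l ω := by
  unfold pr
  rw [Finset.prod_range_add]
  congr 1
  refine Finset.prod_congr rfl fun j _ => ?_
  rw [add_assoc]

lemma pr_abs (hr : ∀ i, |r i| ≤ r1) (n m : ℕ) (ω : Ω) : |pr r I n m ω| ≤ r1 ^ m := by
  unfold pr
  rw [Finset.abs_prod]
  refine (Finset.prod_le_prod (fun _ _ => abs_nonneg _) fun _ _ => hr _).trans ?_
  rw [Finset.prod_const, card_range]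

lemma tl_bd (hr : ∀ i, |r i| ≤ r1) (hr1 : 0 ≤ r1) (hD : ∀ j ω, |V j ω| ≤ D) (n l : ℕ) (ω : Ω) :
    |pr r I n l ω * V (n + l) ω| ≤ D * r1 ^ l := by
  rw [abs_mul, mul_comm]
  exact mul_le_mul (hD _ _) (pr_abs hr _ _ _) (abs_nonneg _) ((abs_nonneg _).trans (hD 0 ω))

lemma tl_summable (hr : ∀ i, |r i| ≤ r1) (hr1 : 0 ≤ r1) (hr2 : r1 < 1) (hD : ∀ j ω, |V j ω| ≤ D) (n : ℕ) (ω : Ω) :
    Summable fun l => pr r I n l ω * V (n + l) ω := by
  apply Summable.of_norm_bounded (g := fun l => D * r1 ^ l)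
  · exact (summable_geometric_of_lt_one hr1 hr2).mul_left _
  · intro l
    exact tl_bd hr hr1 hD n l ω

lemma tl_tendsto (hr : ∀ i, |r i| ≤ r1) (hr1 : 0 ≤ r1) (hr2 : r1 < 1) (hD : ∀ j ω, |V j ω| ≤ D) (n : ℕ) (ω : Ω) :
    Tendsto (fun m => tr r I V n m ω) atTop (𝓝 (tl r I V n ω)) :=
  (tl_summable hr hr1 hr2 hD n ω).hasSum.tendsto_sum_nat

lemma tr_abs (hr : ∀ i, |r i| ≤ r1) (hr1 : 0 ≤ r1) (hr2 : r1 < 1) (hD : ∀ j ω, |V j ω| ≤ D) (n m : ℕ) (ω : Ω) :
    |tr r I V n m ω| ≤ D / (1 - r1) := by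
  have hD0 : (0 : ℝ) ≤ D := (abs_nonneg _).trans (hD 0 ω)
  unfold tr
  refine (Finset.abs_sum_le_sum_abs _ _).trans ?_
  refine (Finset.sum_le_sum fun l _ => tl_bd hr hr1 hD n l ω).trans ?_
  rw [← Finset.mul_sum, le_div_iff₀ (by linarith), mul_assoc, mul_comm _ (1 - r1), mul_neg_geom_sum]
  have : 0 ≤ r1 ^ m := by positivity
  nlinarith

lemma tl_abs (hr : ∀ i, |r i| ≤ r1) (hr1 : 0 ≤ r1) (hr2 : r1 < 1) (hD : ∀ j ω, |V j ω| ≤ D) (n : ℕ) (ω : Ω) :
    |tl r I V n ω| ≤ D / (1 - r1) := by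
  apply le_of_tendsto (tl_tendsto hr hr1 hr2 hD n ω).abs
  exact Eventually.of_forall fun m => tr_abs hr hr1 hr2 hD n m ω

lemma tl_split (hr : ∀ i, |r i| ≤ r1) (hr1 : 0 ≤ r1) (hr2 : r1 < 1) (hD : ∀ j ω, |V j ω| ≤ D) (n m : ℕ) (ω : Ω) :
    tl r I V n ω = tr r I V n m ω + pr r I n m ω * tl r I V (n + m) ω := by
  unfold tl tr
  rw [← (tl_summable hr hr1 hr2 hD n ω).sum_add_tsum_nat_add m, ← tsum_mul_left]
  congr 1
  refine tsum_congr fun l => ?_
  rw [add_comm l m, pr_add, ← add_assoc]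
  ring

variable [MeasurableSpace ι] [DiscreteMeasurableSpace ι]

lemma pr_meas {m : MeasurableSpace Ω} {n k : ℕ} (hI : ∀ j, n ≤ j → j < n + k → Measurable[m] (I j)) :
    Measurable[m] (pr r I n k) := by
  unfold pr
  apply Finset.measurable_fun_prod
  intro l hl
  have := Finset.mem_range.1 hl
  exact (Measurable.of_discrete (f := r)).comp (hI (n + l) (by omega) (by omega))

lemma tr_meas {m : MeasurableSpace Ω} {n k : ℕ} (hI : ∀ j, n ≤ j → j < n + k → Measurable[m] (I j))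
    (hV : ∀ j, n ≤ j → j < n + k → Measurable[m] (V j)) : Measurable[m] (tr r I V n k) := by
  unfold tr
  apply Finset.measurable_fun_sum
  intro l hl
  have := Finset.mem_range.1 hl
  exact (pr_meas fun j h1 h2 => hI j h1 (by omega)).mul (hV _ (by omega) (by omega))

lemma tl_meas (hr : ∀ i, |r i| ≤ r1) (hr1 : 0 ≤ r1) (hr2 : r1 < 1) (hD : ∀ j ω, |V j ω| ≤ D)
    {m : MeasurableSpace Ω} {n : ℕ} (hI : ∀ j, n ≤ j → Measurable[m] (I j))
    (hV : ∀ j, n ≤ j → Measurable[m] (V j)) : Measurable[m] (tl r I V n) := by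
  apply measurable_of_tendsto_metrizable (f := fun k ω => tr r I V n k ω)
  · intro k
    exact tr_meas (fun j h1 _ => hI j h1) fun j h1 _ => hV j h1
  · rw [tendsto_pi_nhds]
    exact tl_tendsto hr hr1 hr2 hD n

end series

section prob

variable {Ω : Type} {mΩ : MeasurableSpace Ω} {μ : Measure Ω}

/-- integration over independent variables -/
lemma ind_int {E G E' : Type} [MeasurableSpace E] [MeasurableSpace G] [NormedAddCommGroup E'] [NormedSpace ℝ E']
    [IsProbabilityMeasure μ] {A : Ω → E} {Y : Ω → G} (hA : Measurable A) (hY : Measurable Y) (h : IndepFun A Y μ)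
    {F : E × G → E'} (hF : StronglyMeasurable F) {C : ℝ} (hC : ∀ z, ‖F z‖ ≤ C) :
    ∫ ω, F (A ω, Y ω) ∂μ = ∫ ω, ∫ y, F (A ω, y) ∂(μ.map Y) ∂μ := by
  have h1 := (indepFun_iff_map_prod_eq_prod_map_map hA.aemeasurable hY.aemeasurable).1 h
  have h2 : ∫ ω, F (A ω, Y ω) ∂μ = ∫ z, F z ∂(μ.map fun ω => (A ω, Y ω)) :=
    (integral_map (hA.prodMk hY).aemeasurable hF.aestronglyMeasurable).symm
  have := Measure.isProbabilityMeasure_map (μ := μ) hY.aemeasurable
  have := Measure.isProbabilityMeasure_map (μ := μ) hA.aemeasurable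
  have hint : Integrable F ((μ.map A).prod (μ.map Y)) :=
    Integrable.of_bound hF.aestronglyMeasurable C (Eventually.of_forall hC)
  rw [h2, h1, integral_prod _ hint, integral_map hA.aemeasurable hF.integral_prod_right'.aestronglyMeasurable]

variable {ι : Type} [Fintype ι] [MeasurableSpace ι] [DiscreteMeasurableSpace ι]

/-- integration of a function of a finite random variable -/
lemma int_fin [IsProbabilityMeasure μ] {Y : Ω → ι} (hY : Measurable Y) (G : ι → ℝ) :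
    ∫ ω, G (Y ω) ∂μ = ∑ i, μ.real (Y ⁻¹' {i}) * G i := by
  have := Measure.isProbabilityMeasure_map (μ := μ) hY.aemeasurable
  have h1 : ∫ ω, G (Y ω) ∂μ = ∫ i, G i ∂(μ.map Y) :=
    (integral_map hY.aemeasurable (Measurable.of_discrete (f := G)).aestronglyMeasurable).symm
  rw [h1, integral_fintype Integrable.of_finite]
  refine Finset.sum_congr rfl fun i _ => ?_
  rw [map_measureReal_apply hY (measurableSet_singleton i), smul_eq_mul]

end prob

end Pool.Agent.J4H75.CM
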