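import Pool.Agent.J4H75.CM.G1

set_option autoImplicit false

/-! The Fourier transforms of the tails of a random series. -/

namespace Pool.Agent.J4H75.CM

open MeasureTheory ProbabilityTheory Finset Filter Topology
open scoped Real ENNReal
open Pool.Agent.J4H40.Ca (dn dn_nn dn_half ee_cont two_atoms dn_mul)
open Pool.Agent.J4H75.PN (ee norm_ee ee_add)
open Pool.Agent.J4H75.CN (Qf Qf_nn Qf_le Qf_neg ee_lip)

/-- a random series -/
structure Rs {Ω : Type} {mΩ : MeasurableSpace Ω} (μ : Measure Ω) {ι : Type} [MeasurableSpace ι] (I : ℕ → Ω → ι)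
    (V : ℕ → Ω → ℝ) (p r : ι → ℝ) (r0 r1 D : ℝ) : Prop where
  mI : ∀ j, Measurable (I j)
  mV : ∀ j, Measurable (V j)
  ind : iIndepFun (fun j ω => (I j ω, V j ω)) μ
  law : ∀ j i, μ.real (I j ⁻¹' {i}) = p i
  p_pos : ∀ i, 0 < p i
  r0_pos : 0 < r0
  r1_pos : 0 < r1
  r1_lt : r1 < 1
  rr : ∀ i, r0 ≤ |r i| ∧ |r i| ≤ r1
  bd : ∀ j ω, |V j ω| ≤ D

variable {Ω : Type} {mΩ : MeasurableSpace Ω} {μ : Measure Ω} {ι : Type} [Fintype ι] [MeasurableSpace ι]
  [DiscreteMeasurableSpace ι] {I : ℕ → Ω → ι} {V : ℕ → Ω → ℝ} {p r : ι → ℝ} {r0 r1 D : ℝ}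

/-- the past -/
@[reducible] def Fl (I : ℕ → Ω → ι) (V : ℕ → Ω → ℝ) (N : ℕ) : MeasurableSpace Ω :=
  ⨆ j ∈ Set.Iio N, MeasurableSpace.comap (fun ω => (I j ω, V j ω)) inferInstance

/-- the future -/
@[reducible] def Fr (I : ℕ → Ω → ι) (V : ℕ → Ω → ℝ) (N : ℕ) : MeasurableSpace Ω :=
  ⨆ j ∈ Set.Ici N, MeasurableSpace.comap (fun ω => (I j ω, V j ω)) inferInstance

omit [Fintype ι] [DiscreteMeasurableSpace ι] in
lemma fl_I {N j : ℕ} (hj : j < N) : Measurable[Fl I V N] (I j) := by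
  have h1 : Measurable[MeasurableSpace.comap (fun ω => (I j ω, V j ω)) inferInstance] (I j) :=
    measurable_fst.comp (comap_measurable fun ω => (I j ω, V j ω))
  exact h1.mono (le_iSup₂_of_le j (Set.mem_Iio.2 hj) le_rfl) le_rfl

omit [Fintype ι] [DiscreteMeasurableSpace ι] in
lemma fl_V {N j : ℕ} (hj : j < N) : Measurable[Fl I V N] (V j) := by
  have h1 : Measurable[MeasurableSpace.comap (fun ω => (I j ω, V j ω)) inferInstance] (V j) :=
    measurable_snd.comp (comap_measurable fun ω => (I j ω, V j ω))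
  exact h1.mono (le_iSup₂_of_le j (Set.mem_Iio.2 hj) le_rfl) le_rfl

omit [Fintype ι] [DiscreteMeasurableSpace ι] in
lemma fr_I {N j : ℕ} (hj : N ≤ j) : Measurable[Fr I V N] (I j) := by
  have h1 : Measurable[MeasurableSpace.comap (fun ω => (I j ω, V j ω)) inferInstance] (I j) :=
    measurable_fst.comp (comap_measurable fun ω => (I j ω, V j ω))
  exact h1.mono (le_iSup₂_of_le j (Set.mem_Ici.2 hj) le_rfl) le_rfl

omit [Fintype ι] [DiscreteMeasurableSpace ι] in
lemma fr_V {N j : ℕ} (hj : N ≤ j) : Measurable[Fr I V N] (V j) := by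
  have h1 : Measurable[MeasurableSpace.comap (fun ω => (I j ω, V j ω)) inferInstance] (V j) :=
    measurable_snd.comp (comap_measurable fun ω => (I j ω, V j ω))
  exact h1.mono (le_iSup₂_of_le j (Set.mem_Ici.2 hj) le_rfl) le_rfl

omit [Fintype ι] [DiscreteMeasurableSpace ι] in
lemma Rs.indep (h : Rs μ I V p r r0 r1 D) {E G : Type} [MeasurableSpace E] [MeasurableSpace G] {N : ℕ} {A : Ω → E}
    {Y : Ω → G} (hA : Measurable[Fl I V N] A) (hY : Measurable[Fr I V N] Y) : IndepFun A Y μ := by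
  have h1 : Indep (Fl I V N) (Fr I V N) μ := by
    apply indep_iSup_of_disjoint (fun j => ((h.mI j).prodMk (h.mV j)).comap_le) h.ind
    rw [Set.disjoint_left]
    intro i hi1 hi2
    have h3 := Set.mem_Iio.1 hi1
    have h4 := Set.mem_Ici.1 hi2
    omega
  rw [IndepFun_iff_Indep]
  exact indep_of_indep_of_le_left (indep_of_indep_of_le_right h1 (measurable_iff_comap_le.1 hY))
    (measurable_iff_comap_le.1 hA)

omit [Fintype ι] in
lemma Rs.pr_m (h : Rs μ I V p r r0 r1 D) (n m : ℕ) : Measurable (pr r I n m) := pr_meas fun j _ _ => h.mI j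

omit [Fintype ι] in
lemma Rs.tr_m (h : Rs μ I V p r r0 r1 D) (n m : ℕ) : Measurable (tr r I V n m) :=
  tr_meas (fun j _ _ => h.mI j) fun j _ _ => h.mV j

omit [Fintype ι] in
lemma Rs.tl_m (h : Rs μ I V p r r0 r1 D) (n : ℕ) : Measurable (tl r I V n) :=
  tl_meas (fun i => (h.rr i).2) h.r1_pos.le h.r1_lt h.bd (fun j _ => h.mI j) fun j _ => h.mV j

omit [Fintype ι] in
lemma Rs.tl_fr (h : Rs μ I V p r r0 r1 D) (n : ℕ) : Measurable[Fr I V n] (tl r I V n) :=
  tl_meas (fun i => (h.rr i).2) h.r1_pos.le h.r1_lt h.bd (fun _ hj => fr_I hj) fun _ hj => fr_V hj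

lemma Rs.psum [IsProbabilityMeasure μ] (h : Rs μ I V p r r0 r1 D) : ∑ i, p i = 1 := by
  have h1 := int_fin (μ := μ) (h.mI 0) (fun _ => (1 : ℝ))
  simp only [mul_one, h.law] at h1
  rw [← h1, integral_const, probReal_univ, one_smul]

/-- the law of the products of the ratios -/
lemma Rs.pr_law [IsProbabilityMeasure μ] (h : Rs μ I V p r r0 r1 D) {f : ℝ → ℝ} (hf : Measurable f) {C : ℝ}
    (hC : ∀ t, |f t| ≤ C) (n m : ℕ) : ∀ t, ∫ ω, f (pr r I n m ω * t) ∂μ = (Ar p r)^[m] f t := by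
  induction m with
  | zero =>
    intro t
    simp only [pr_zero, one_mul]
    rw [integral_const, probReal_univ, one_smul]
    rfl
  | succ m ih =>
    intro t
    have hind : IndepFun (I (n + m)) (pr r I n m) μ :=
      (h.indep (N := n + m) (pr_meas fun j _ hj => fl_I hj) (fr_I le_rfl)).symm
    have hF : StronglyMeasurable fun z : ι × ℝ => f (z.2 * (r z.1 * t)) := by
      apply Measurable.stronglyMeasurable
      apply hf.comp
      exact measurable_snd.mul (((Measurable.of_discrete (f := r)).comp measurable_fst).mul_const _)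
    have h1 := ind_int (h.mI (n + m)) (h.pr_m n m) hind hF (C := C) (fun z => hC _)
    simp only at h1
    have h2 : ∀ ω, pr r I n (m + 1) ω * t = pr r I n m ω * (r (I (n + m) ω) * t) := by
      intro ω
      rw [pr_succ]
      ring
    simp only [h2]
    rw [h1]
    have h3 : ∀ i, ∫ y, f (y * (r i * t)) ∂(μ.map (pr r I n m)) = (Ar p r)^[m] f (r i * t) := by
      intro i
      have hm : AEStronglyMeasurable (fun y => f (y * (r i * t))) (μ.map (pr r I n m)) :=
        (hf.comp (measurable_id.mul_const _)).aestronglyMeasurable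
      rw [integral_map (h.pr_m n m).aemeasurable hm]
      exact ih _
    simp only [h3]
    rw [int_fin (h.mI (n + m)) (fun i => (Ar p r)^[m] f (r i * t)), Function.iterate_succ_apply']
    unfold Ar
    refine Finset.sum_congr rfl fun i _ => ?_
    rw [h.law]

omit [Fintype ι] in
/-- the Fourier transform of a tail -/
lemma Rs.four [IsProbabilityMeasure μ] (h : Rs μ I V p r r0 r1 D) (n m : ℕ) (t : ℝ) :
    ∫ x, ee (t * x) ∂(μ.map (tl r I V n)) =
      ∫ ω, ee (t * tr r I V n m ω) * ∫ x, ee (pr r I n m ω * t * x) ∂(μ.map (tl r I V (n + m))) ∂μ := by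
  have hcn : Continuous fun y : ℝ => ee (t * y) := ee_cont.comp (continuous_const.mul continuous_id)
  rw [integral_map (h.tl_m n).aemeasurable hcn.aestronglyMeasurable]
  have h1 : ∀ ω, ee (t * tl r I V n ω) = ee (t * (tr r I V n m ω + pr r I n m ω * tl r I V (n + m) ω)) := by
    intro ω
    rw [tl_split (fun i => (h.rr i).2) h.r1_pos.le h.r1_lt h.bd n m ω]
  simp only [h1]
  have hind : IndepFun (fun ω => (tr r I V n m ω, pr r I n m ω)) (tl r I V (n + m)) μ :=
    h.indep (N := n + m) ((tr_meas (fun j _ hj => fl_I hj) fun j _ hj => fl_V hj).prodMk (pr_meas fun j _ hj => fl_I hj))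
      (h.tl_fr _)
  have hF : StronglyMeasurable fun z : (ℝ × ℝ) × ℝ => ee (t * (z.1.1 + z.1.2 * z.2)) := by
    apply Continuous.stronglyMeasurable
    exact ee_cont.comp (continuous_const.mul
      ((continuous_fst.comp continuous_fst).add ((continuous_snd.comp continuous_fst).mul continuous_snd)))
  have h2 := ind_int ((h.tr_m n m).prodMk (h.pr_m n m)) (h.tl_m (n + m)) hind hF (C := 1) (fun z => by rw [norm_ee])
  simp only at h2
  rw [h2]
  refine integral_congr_ae (Eventually.of_forall fun ω => ?_)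
  simp only
  rw [← integral_const_mul]
  refine integral_congr_ae (Eventually.of_forall fun y => ?_)
  simp only
  rw [← ee_add]
  congr 1
  ring

/-- the supremum of the moduli of the Fourier transforms of the tails -/
noncomputable def Qsup (μ : Measure Ω) (r : ι → ℝ) (I : ℕ → Ω → ι) (V : ℕ → Ω → ℝ) (t : ℝ) : ℝ :=
  ⨆ n, Qf (μ.map (tl r I V n)) t

omit [Fintype ι] in
lemma Rs.prob [IsProbabilityMeasure μ] (h : Rs μ I V p r r0 r1 D) (n : ℕ) : IsProbabilityMeasure (μ.map (tl r I V n)) :=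
  Measure.isProbabilityMeasure_map (h.tl_m n).aemeasurable

omit [Fintype ι] in
lemma Rs.le_sup [IsProbabilityMeasure μ] (h : Rs μ I V p r r0 r1 D) (n : ℕ) (t : ℝ) :
    Qf (μ.map (tl r I V n)) t ≤ Qsup μ r I V t := by
  apply le_ciSup (f := fun n => Qf (μ.map (tl r I V n)) t) ⟨1, ?_⟩ n
  rintro _ ⟨m, rfl⟩
  have := h.prob m
  exact Qf_le t

omit [Fintype ι] in
/-- the Fourier transforms are uniformly Lipschitz -/
lemma Rs.lip1 [IsProbabilityMeasure μ] (h : Rs μ I V p r r0 r1 D) (n : ℕ) (t s : ℝ) :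
    ‖(∫ x, ee (t * x) ∂(μ.map (tl r I V n))) - ∫ x, ee (s * x) ∂(μ.map (tl r I V n))‖ ≤ 2 * π * (D / (1 - r1)) * |t - s| := by
  have hcn : ∀ t : ℝ, Continuous fun y : ℝ => ee (t * y) := fun t => ee_cont.comp (continuous_const.mul continuous_id)
  have hi : ∀ t : ℝ, Integrable (fun ω => ee (t * tl r I V n ω)) μ := by
    intro t
    apply Integrable.of_bound (C := 1)
    · exact (ee_cont.measurable.comp ((h.tl_m n).const_mul t)).aestronglyMeasurable
    · filter_upwards with ω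
      rw [norm_ee]
  rw [integral_map (h.tl_m n).aemeasurable (hcn t).aestronglyMeasurable,
    integral_map (h.tl_m n).aemeasurable (hcn s).aestronglyMeasurable, ← integral_sub (hi t) (hi s)]
  have h1 := norm_integral_le_of_norm_le_const (μ := μ) (f := fun ω => ee (t * tl r I V n ω) - ee (s * tl r I V n ω))
    (C := 2 * π * (D / (1 - r1)) * |t - s|) (Eventually.of_forall fun ω => by
      refine (ee_lip _ _).trans ?_
      rw [← sub_mul, abs_mul]
      have h2 := tl_abs (I := I) (fun i => (h.rr i).2) h.r1_pos.le h.r1_lt h.bd n ω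
      calc 2 * π * (|t - s| * |tl r I V n ω|) ≤ 2 * π * (|t - s| * (D / (1 - r1))) := by gcongr
        _ = _ := by ring)
  rw [probReal_univ, mul_one] at h1
  exact h1

omit [Fintype ι] in
lemma Rs.sup_lip [IsProbabilityMeasure μ] (h : Rs μ I V p r r0 r1 D) (t s : ℝ) :
    |Qsup μ r I V t - Qsup μ r I V s| ≤ 2 * π * (D / (1 - r1)) * |t - s| := by
  have key : ∀ t s, Qsup μ r I V t ≤ Qsup μ r I V s + 2 * π * (D / (1 - r1)) * |t - s| := by
    intro t s
    apply ciSup_le
    intro n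
    have h1 := h.lip1 n t s
    have h2 := h.le_sup n s
    have h3 := norm_sub_norm_le (∫ x, ee (t * x) ∂(μ.map (tl r I V n))) (∫ x, ee (s * x) ∂(μ.map (tl r I V n)))
    unfold Qf at h2 ⊢
    linarith
  rw [abs_le]
  have h1 := key t s
  have h2 := key s t
  rw [abs_sub_comm] at h2
  constructor <;> linarith

omit [Fintype ι] in
lemma Rs.sup_cont [IsProbabilityMeasure μ] (h : Rs μ I V p r r0 r1 D) : Continuous (Qsup μ r I V) := by
  have h1 : LipschitzWith (Real.toNNReal (2 * π * (D / (1 - r1)))) (Qsup μ r I V) := by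
    apply LipschitzWith.of_dist_le_mul
    intro t s
    rw [Real.dist_eq, Real.dist_eq]
    refine (h.sup_lip t s).trans ?_
    exact mul_le_mul_of_nonneg_right (Real.le_coe_toNNReal _) (abs_nonneg _)
  exact h1.continuous

omit [Fintype ι] in
lemma Rs.phi_cont [IsProbabilityMeasure μ] (h : Rs μ I V p r r0 r1 D) (n : ℕ) :
    Continuous fun t : ℝ => ∫ x, ee (t * x) ∂(μ.map (tl r I V n)) := by
  have h1 : LipschitzWith (Real.toNNReal (2 * π * (D / (1 - r1)))) fun t : ℝ => ∫ x, ee (t * x) ∂(μ.map (tl r I V n)) := by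
    apply LipschitzWith.of_dist_le_mul
    intro t s
    rw [dist_eq_norm, Real.dist_eq]
    refine (h.lip1 n t s).trans ?_
    exact mul_le_mul_of_nonneg_right (Real.le_coe_toNNReal _) (abs_nonneg _)
  exact h1.continuous

omit [Fintype ι] in
lemma Rs.sup_nn [IsProbabilityMeasure μ] (h : Rs μ I V p r r0 r1 D) (t : ℝ) : 0 ≤ Qsup μ r I V t :=
  (Qf_nn t).trans (h.le_sup 0 t)

omit [Fintype ι] in
lemma Rs.sup_le1 [IsProbabilityMeasure μ] (h : Rs μ I V p r r0 r1 D) (t : ℝ) : Qsup μ r I V t ≤ 1 := by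
  apply ciSup_le
  intro n
  have := h.prob n
  exact Qf_le t

omit [Fintype ι] in
lemma Rs.F_meas [IsProbabilityMeasure μ] (h : Rs μ I V p r r0 r1 D) (n m : ℕ) (t : ℝ) :
    Measurable fun ω => ee (t * tr r I V n m ω) * ∫ x, ee (pr r I n m ω * t * x) ∂(μ.map (tl r I V (n + m))) := by
  apply (ee_cont.measurable.comp ((h.tr_m n m).const_mul t)).mul
  exact (h.phi_cont (n + m)).measurable.comp ((h.pr_m n m).mul_const t)

omit [Fintype ι] in
lemma Rs.F_bd [IsProbabilityMeasure μ] (h : Rs μ I V p r r0 r1 D) (n m : ℕ) (t : ℝ) (ω : Ω) :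
    ‖ee (t * tr r I V n m ω) * ∫ x, ee (pr r I n m ω * t * x) ∂(μ.map (tl r I V (n + m)))‖ ≤
      Qsup μ r I V (pr r I n m ω * t) := by
  rw [norm_mul, norm_ee, one_mul]
  exact h.le_sup (n + m) _

omit [Fintype ι] in
lemma Rs.Q_int [IsProbabilityMeasure μ] (h : Rs μ I V p r r0 r1 D) (n m : ℕ) (t : ℝ) :
    Integrable (fun ω => Qsup μ r I V (pr r I n m ω * t)) μ := by
  apply Integrable.of_bound (C := 1)
  · exact (h.sup_cont.measurable.comp ((h.pr_m n m).mul_const t)).aestronglyMeasurable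
  · filter_upwards with ω
    rw [Real.norm_eq_abs, abs_of_nonneg (h.sup_nn _)]
    exact h.sup_le1 _

omit [Fintype ι] in
lemma Rs.step [IsProbabilityMeasure μ] (h : Rs μ I V p r r0 r1 D) (n m : ℕ) (t : ℝ) :
    Qf (μ.map (tl r I V n)) t ≤ ∫ ω, Qsup μ r I V (pr r I n m ω * t) ∂μ := by
  unfold Qf
  rw [h.four n m t]
  refine (norm_integral_le_integral_norm _).trans ?_
  apply integral_mono_of_nonneg (Eventually.of_forall fun ω => norm_nonneg _) (h.Q_int n m t)
  exact Eventually.of_forall fun ω => h.F_bd n m t ω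

lemma dn_fac {k H : ℕ} (hk : 1 ≤ k) (hkH : k ≤ H) (u t : ℝ) :
    dn (H.factorial * u * t) ^ 2 / (H.factorial : ℝ) ^ 2 ≤ dn (t * (k * u)) ^ 2 := by
  obtain ⟨q, hq⟩ : k ∣ H.factorial := Nat.dvd_factorial hk hkH
  have hG : 1 ≤ H.factorial := Nat.factorial_pos H
  have hG0 : (0 : ℝ) < H.factorial := by exact_mod_cast hG
  have hq1 : 1 ≤ q := by
    rcases Nat.eq_zero_or_pos q with h | h
    · rw [h, mul_zero] at hq
      omega
    · exact h
  have h3 : (H.factorial : ℝ) * u * t = ((q : ℤ) : ℝ) * (t * (k * u)) := by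
    rw [hq]
    push_cast
    ring
  have h4 := dn_mul (q : ℤ) (t * (k * u))
  rw [← h3] at h4
  have h5 : |((q : ℤ) : ℝ)| ≤ H.factorial := by
    rw [Int.cast_natCast, Nat.abs_cast, hq]
    have h6 : q ≤ k * q := Nat.le_mul_of_pos_left _ hk
    exact_mod_cast h6
  have h6 : dn (H.factorial * u * t) ≤ H.factorial * dn (t * (k * u)) := h4.trans (mul_le_mul_of_nonneg_right h5 (dn_nn _))
  rw [div_le_iff₀ (by positivity)]
  calc dn (H.factorial * u * t) ^ 2 ≤ (H.factorial * dn (t * (k * u))) ^ 2 := pow_le_pow_left₀ (dn_nn _) h6 2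
    _ = dn (t * (k * u)) ^ 2 * (H.factorial : ℝ) ^ 2 := by ring

omit [Fintype ι] in
/-- the gain from two maps which differ by a translation -/
lemma Rs.raw [IsProbabilityMeasure μ] (h : Rs μ I V p r r0 r1 D) {B : ℕ} {ρ c u0 x : ℝ} {k H : ℕ} (n : ℕ) (hc : 0 < c)
    (hu : 0 < u0) (hk : 1 ≤ k) (hkH : k ≤ H)
    (h1 : c ≤ μ.real {ω | pr r I n B ω = ρ ∧ tr r I V n B ω = x})
    (h2 : c ≤ μ.real {ω | pr r I n B ω = ρ ∧ tr r I V n B ω = x + k * u0}) :
    ∃ E : Set Ω, MeasurableSet E ∧ (∀ ω ∈ E, pr r I n B ω = ρ) ∧ E.Nonempty ∧ c ≤ μ.real E ∧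
      ∀ t : ℝ, Qf (μ.map (tl r I V n)) t ≤ ∫ ω in Eᶜ, Qsup μ r I V (pr r I n B ω * t) ∂μ +
        (μ.real E - 4 * c / (H.factorial : ℝ) ^ 2 * dn (H.factorial * u0 * t) ^ 2) * Qsup μ r I V (ρ * t) := by
  obtain ⟨E0, hE0⟩ : ∃ E0, E0 = {ω | pr r I n B ω = ρ ∧ tr r I V n B ω = x} := ⟨_, rfl⟩
  obtain ⟨E1, hE1⟩ : ∃ E1, E1 = {ω | pr r I n B ω = ρ ∧ tr r I V n B ω = x + k * u0} := ⟨_, rfl⟩
  rw [← hE0] at h1
  rw [← hE1] at h2
  have hm0 : MeasurableSet E0 := by
    rw [hE0]
    exact (measurableSet_eq_fun (h.pr_m n B) measurable_const).inter (measurableSet_eq_fun (h.tr_m n B) measurable_const)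
  have hm1 : MeasurableSet E1 := by
    rw [hE1]
    exact (measurableSet_eq_fun (h.pr_m n B) measurable_const).inter (measurableSet_eq_fun (h.tr_m n B) measurable_const)
  have hk0 : (1 : ℝ) ≤ k := by exact_mod_cast hk
  have hdisj : Disjoint E0 E1 := by
    rw [Set.disjoint_left]
    intro ω h3 h4
    rw [hE0] at h3
    rw [hE1] at h4
    have h5 : tr r I V n B ω = x := h3.2
    have h6 : tr r I V n B ω = x + k * u0 := h4.2
    have h7 : 0 < (k : ℝ) * u0 := by positivity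
    linarith
  have hmu : μ.real (E0 ∪ E1) = μ.real E0 + μ.real E1 := measureReal_union hdisj hm1
  refine ⟨E0 ∪ E1, hm0.union hm1, ?_, ?_, ?_, ?_⟩
  · rintro ω (hω | hω)
    · rw [hE0] at hω
      exact hω.1
    · rw [hE1] at hω
      exact hω.1
  · by_contra hne
    rw [Set.not_nonempty_iff_eq_empty] at hne
    rw [hne, measureReal_empty] at hmu
    linarith
  · rw [hmu]
    linarith
  · intro t
    obtain ⟨Φ, hΦ⟩ : ∃ Φ : ℝ → ℂ, Φ = fun s => ∫ x, ee (s * x) ∂(μ.map (tl r I V (n + B))) := ⟨_, rfl⟩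
    obtain ⟨F, hF⟩ : ∃ F : Ω → ℂ, F = fun ω => ee (t * tr r I V n B ω) * Φ (pr r I n B ω * t) := ⟨_, rfl⟩
    have hFm : Measurable F := by
      rw [hF, hΦ]
      exact h.F_meas n B t
    have hFb : ∀ ω, ‖F ω‖ ≤ Qsup μ r I V (pr r I n B ω * t) := by
      intro ω
      rw [hF, hΦ]
      exact h.F_bd n B t ω
    have hFi : Integrable F μ :=
      Integrable.of_bound hFm.aestronglyMeasurable 1 (Eventually.of_forall fun ω => (hFb ω).trans (h.sup_le1 _))
    have e1 : ∫ x, ee (t * x) ∂(μ.map (tl r I V n)) = ∫ ω, F ω ∂μ := by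
      rw [h.four n B t, hF, hΦ]
    have e2 : ∫ ω, F ω ∂μ = (∫ ω in (E0 ∪ E1)ᶜ, F ω ∂μ) + ((∫ ω in E0, F ω ∂μ) + ∫ ω in E1, F ω ∂μ) := by
      rw [← setIntegral_union hdisj hm1 hFi.integrableOn hFi.integrableOn, add_comm]
      exact (integral_add_compl (hm0.union hm1) hFi).symm
    have e3 : ∫ ω in E0, F ω ∂μ = (μ.real E0 : ℂ) * (ee (t * x) * Φ (ρ * t)) := by
      have h3 : ∫ ω in E0, F ω ∂μ = ∫ _ω in E0, ee (t * x) * Φ (ρ * t) ∂μ := by
        apply setIntegral_congr_fun hm0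
        intro ω hω
        rw [hE0] at hω
        rw [hF]
        simp only
        rw [hω.1, hω.2]
      rw [h3, setIntegral_const, Complex.real_smul]
    have e4 : ∫ ω in E1, F ω ∂μ = (μ.real E1 : ℂ) * (ee (t * (x + k * u0)) * Φ (ρ * t)) := by
      have h3 : ∫ ω in E1, F ω ∂μ = ∫ _ω in E1, ee (t * (x + k * u0)) * Φ (ρ * t) ∂μ := by
        apply setIntegral_congr_fun hm1
        intro ω hω
        rw [hE1] at hω
        rw [hF]
        simp only
        rw [hω.1, hω.2]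
      rw [h3, setIntegral_const, Complex.real_smul]
    have e5 : ‖∫ ω in (E0 ∪ E1)ᶜ, F ω ∂μ‖ ≤ ∫ ω in (E0 ∪ E1)ᶜ, Qsup μ r I V (pr r I n B ω * t) ∂μ := by
      refine (norm_integral_le_integral_norm _).trans ?_
      exact integral_mono_of_nonneg (Eventually.of_forall fun ω => norm_nonneg _) (h.Q_int n B t).integrableOn
        (Eventually.of_forall hFb)
    have e6 : ‖(∫ ω in E0, F ω ∂μ) + ∫ ω in E1, F ω ∂μ‖ ≤
        (μ.real (E0 ∪ E1) - 4 * c / (H.factorial : ℝ) ^ 2 * dn (H.factorial * u0 * t) ^ 2) * Qsup μ r I V (ρ * t) := by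
      have h3 : (∫ ω in E0, F ω ∂μ) + ∫ ω in E1, F ω ∂μ =
          ((μ.real E0 - c : ℝ) * ee (t * x) + (μ.real E1 - c : ℝ) * ee (t * (x + k * u0)) +
            (c : ℂ) * (ee (t * x) * (1 + ee (t * (k * u0))))) * Φ (ρ * t) := by
        have h4 : ee (t * (x + k * u0)) = ee (t * x) * ee (t * (k * u0)) := by
          rw [← ee_add]
          congr 1
          ring
        rw [e3, e4, h4]
        push_cast
        ring
      rw [h3, norm_mul]
      have h4 : ‖Φ (ρ * t)‖ ≤ Qsup μ r I V (ρ * t) := by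
        rw [hΦ]
        exact h.le_sup (n + B) _
      have h5 : ‖((μ.real E0 - c : ℝ) * ee (t * x) + (μ.real E1 - c : ℝ) * ee (t * (x + k * u0)) +
            (c : ℂ) * (ee (t * x) * (1 + ee (t * (k * u0)))))‖ ≤
          μ.real (E0 ∪ E1) - 4 * c / (H.factorial : ℝ) ^ 2 * dn (H.factorial * u0 * t) ^ 2 := by
        refine (norm_add_le _ _).trans ?_
        refine (add_le_add (norm_add_le _ _) le_rfl).trans ?_
        rw [norm_mul, norm_mul, norm_mul, norm_mul, norm_ee, norm_ee, Complex.norm_real, Complex.norm_real, Complex.norm_real,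
          Real.norm_eq_abs, Real.norm_eq_abs, Real.norm_eq_abs, abs_of_nonneg (by linarith), abs_of_nonneg (by linarith),
          abs_of_pos hc, one_mul, mul_one, mul_one]
        have h6 := two_atoms (t * (k * u0))
        have h7 := dn_fac hk hkH u0 t
        have h8 := mul_le_mul_of_nonneg_left h6 hc.le
        have h9 : 4 * c / (H.factorial : ℝ) ^ 2 * dn (H.factorial * u0 * t) ^ 2 =
            4 * c * (dn (H.factorial * u0 * t) ^ 2 / (H.factorial : ℝ) ^ 2) := by ring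
        have h10 := mul_le_mul_of_nonneg_left h7 (show 0 ≤ 4 * c by positivity)
        rw [hmu, h9]
        nlinarith
      exact mul_le_mul h5 h4 (norm_nonneg _) ((norm_nonneg _).trans h5)
    unfold Qf
    rw [e1, e2]
    exact (norm_add_le _ _).trans (add_le_add e5 e6)

/-- the inequalities for the supremum -/
theorem Rs.qs [IsProbabilityMeasure μ] (h : Rs μ I V p r r0 r1 D) {B : ℕ} {ρ c u0 : ℝ} {H : ℕ} (hc : 0 < c)
    (hu : 0 < u0) (hB : ∀ n, ∃ (x : ℝ) (k : ℕ), 1 ≤ k ∧ k ≤ H ∧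
      c ≤ μ.real {ω | pr r I n B ω = ρ ∧ tr r I V n B ω = x} ∧
      c ≤ μ.real {ω | pr r I n B ω = ρ ∧ tr r I V n B ω = x + k * u0}) :
    Qs p r B (4 * c / (H.factorial : ℝ) ^ 2) (H.factorial * u0) ρ (2 * π * (D / (1 - r1))) (Qsup μ r I V) := by
  have hG1 : (1 : ℝ) ≤ H.factorial := by exact_mod_cast Nat.factorial_pos H
  have hG0 : (0 : ℝ) < H.factorial := by linarith
  have hκd : ∀ t, 4 * c / (H.factorial : ℝ) ^ 2 * dn (H.factorial * u0 * t) ^ 2 ≤ c := by
    intro t
    have h1 : dn (H.factorial * u0 * t) ^ 2 ≤ 1 / 4 := by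
      have h2 := dn_half (H.factorial * u0 * t)
      have h3 := dn_nn (H.factorial * u0 * t)
      nlinarith
    have h2 : (1 : ℝ) ≤ (H.factorial : ℝ) ^ 2 := one_le_pow₀ hG1
    have h3 : 4 * c / (H.factorial : ℝ) ^ 2 ≤ 4 * c := div_le_self (by positivity) h2
    calc 4 * c / (H.factorial : ℝ) ^ 2 * dn (H.factorial * u0 * t) ^ 2 ≤ 4 * c * (1 / 4) :=
          mul_le_mul h3 h1 (sq_nonneg _) (by positivity)
      _ = c := by ring
  refine ⟨h.p_pos, h.psum, ?_, ?_, by positivity, by positivity, ?_, h.sup_nn, h.sup_le1, ?_, h.sup_lip, ?_, ?_, ?_⟩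
  · intro i
    exact abs_pos.1 (h.r0_pos.trans_le (h.rr i).1)
  · intro i
    exact (h.rr i).2.trans_lt h.r1_lt
  · obtain ⟨x, k, hk, hkH, h1, h2⟩ := hB 0
    obtain ⟨E, _, hE, ⟨ω, hω⟩, _⟩ := h.raw 0 hc hu hk hkH h1 h2
    have h3 := hE ω hω
    rw [← h3]
    unfold pr
    rw [Finset.prod_ne_zero_iff]
    intro l _
    exact abs_pos.1 (h.r0_pos.trans_le (h.rr _).1)
  · intro t
    unfold Qsup
    simp only [Qf_neg]
  · intro t
    apply ciSup_le
    intro n
    refine (h.step n 1 t).trans (le_of_eq ?_)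
    rw [h.pr_law h.sup_cont.measurable (C := 1) (fun t => by rw [abs_of_nonneg (h.sup_nn _)]; exact h.sup_le1 _) n 1 t]
    rfl
  · intro t
    apply ciSup_le
    intro n
    obtain ⟨x, k, hk, hkH, h1, h2⟩ := hB n
    obtain ⟨E, hEm, hE, _, _, hraw⟩ := h.raw n hc hu hk hkH h1 h2
    refine (hraw t).trans (le_of_eq ?_)
    rw [← h.pr_law h.sup_cont.measurable (C := 1) (fun t => by rw [abs_of_nonneg (h.sup_nn _)]; exact h.sup_le1 _) n B t,
      ← integral_add_compl hEm (h.Q_int n B t)]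
    have h3 : ∫ ω in E, Qsup μ r I V (pr r I n B ω * t) ∂μ = μ.real E * Qsup μ r I V (ρ * t) := by
      have h4 : ∫ ω in E, Qsup μ r I V (pr r I n B ω * t) ∂μ = ∫ _ω in E, Qsup μ r I V (ρ * t) ∂μ := by
        apply setIntegral_congr_fun hEm
        intro ω hω
        simp only
        rw [hE ω hω]
      rw [h4, setIntegral_const, smul_eq_mul]
    rw [h3]
    ring
  · intro t R hR
    apply ciSup_le
    intro n
    obtain ⟨x, k, hk, hkH, h1, h2⟩ := hB n
    obtain ⟨E, hEm, hE, ⟨ω0, hω0⟩, hcE, hraw⟩ := h.raw n hc hu hk hkH h1 h2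
    have hpR : ∀ ω, Qsup μ r I V (pr r I n B ω * t) ≤ R := by
      intro ω
      have h3 := hR fun l => I (n + l) ω
      unfold pr
      rw [Finset.prod_range]
      exact h3
    have hρR : Qsup μ r I V (ρ * t) ≤ R := by
      have h3 := hpR ω0
      rwa [hE ω0 hω0] at h3
    have h3 : ∫ ω in Eᶜ, Qsup μ r I V (pr r I n B ω * t) ∂μ ≤ μ.real Eᶜ * R := by
      have h4 : ∫ ω in Eᶜ, Qsup μ r I V (pr r I n B ω * t) ∂μ ≤ ∫ _ω in Eᶜ, R ∂μ := by
        apply integral_mono_of_nonneg (Eventually.of_forall fun ω => h.sup_nn _) (integrable_const _)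
        exact Eventually.of_forall hpR
      rwa [setIntegral_const, smul_eq_mul] at h4
    have h4 : μ.real Eᶜ = 1 - μ.real E := probReal_compl_eq_one_sub hEm
    have h5 := mul_le_mul_of_nonneg_left hρR (show 0 ≤ μ.real E - 4 * c / (H.factorial : ℝ) ^ 2 * dn (H.factorial * u0 * t) ^ 2 by
      linarith [hκd t])
    refine (hraw t).trans ?_
    rw [h4] at h3
    calc _ ≤ (1 - μ.real E) * R + (μ.real E - 4 * c / (H.factorial : ℝ) ^ 2 * dn (H.factorial * u0 * t) ^ 2) * R :=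
          add_le_add h3 h5
      _ = _ := by ring

end Pool.Agent.J4H75.CM
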