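import Pool.Agent.J4H75.CM.G2
import Pool.Agent.J4H75.CN.Ext

set_option autoImplicit false

/-! The layers of a random series; the theorem. -/

namespace Pool.Agent.J4H75.CM

open MeasureTheory ProbabilityTheory Finset Filter Topology
open scoped Real ENNReal
open Pool.Agent.J4H75.CN (Qf Few Pre few_scale rand_core core_pre)

variable {Ω : Type} {mΩ : MeasurableSpace Ω} {μ : Measure Ω}

/-- integration over independent variables -/
lemma lin_ind [IsProbabilityMeasure μ] {E G : Type} [MeasurableSpace E] [MeasurableSpace G] {A : Ω → E} {Y : Ω → G}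
    (hA : Measurable A) (hY : Measurable Y) (h : IndepFun A Y μ) {F : E × G → ℝ≥0∞} (hF : Measurable F) :
    ∫⁻ ω, F (A ω, Y ω) ∂μ = ∫⁻ ω, ∫⁻ y, F (A ω, y) ∂(μ.map Y) ∂μ := by
  have h1 := (indepFun_iff_map_prod_eq_prod_map_map hA.aemeasurable hY.aemeasurable).1 h
  have h2 : ∫⁻ ω, F (A ω, Y ω) ∂μ = ∫⁻ z, F z ∂(μ.map fun ω => (A ω, Y ω)) :=
    (lintegral_map hF (hA.prodMk hY)).symm
  have := Measure.isProbabilityMeasure_map (μ := μ) hY.aemeasurable
  rw [h2, h1, lintegral_prod _ hF.aemeasurable]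
  rw [lintegral_map _ hA]
  exact hF.lintegral_prod_right'

variable {ι : Type} [Fintype ι] [MeasurableSpace ι]
  [DiscreteMeasurableSpace ι] {I : ℕ → Ω → ι} {V : ℕ → Ω → ℝ} {p r : ι → ℝ} {r0 r1 D : ℝ}

omit [Fintype ι] in
/-- the layers -/
theorem Rs.pre [IsProbabilityMeasure μ] (h : Rs μ I V p r r0 r1 D) {q : ℝ} {T : ℕ → ℝ}
    (hF : ∀ n, Few q T (μ.map (tl r I V n))) :
    ∃ (T' : ℕ → ℝ) (D' : ℝ), 0 ≤ D' ∧ ∀ G, Pre 2 q T' D' G (μ.map (tl r I V 0)) := by
  classical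
  have hΩ : Nonempty Ω := by
    by_contra hc
    rw [not_nonempty_iff] at hc
    have h1 : μ Set.univ = 1 := measure_univ
    rw [Set.univ_eq_empty_iff.2 hc, measure_empty] at h1
    exact zero_ne_one h1
  have hD0 : 0 ≤ D := (abs_nonneg _).trans (h.bd 0 hΩ.some)
  have h1r : 0 < 1 - r1 := by linarith [h.r1_lt]
  have hr01 : r0 ≤ 1 := ((h.rr (I 0 hΩ.some)).1.trans (h.rr _).2).trans h.r1_lt.le
  refine ⟨fun K => max (T K) 0 / r0, D / (1 - r1), by positivity, ?_⟩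
  intro G
  have h2G : (0 : ℝ) < 2 ^ G := by positivity
  obtain ⟨s, hs⟩ : ∃ s : ℝ, s = 1 / 2 ^ G := ⟨_, rfl⟩
  have hs0 : 0 < s := by rw [hs]; positivity
  have h2s : (2 : ℝ) ^ G * s = 1 := by rw [hs]; field_simp
  have hs1 : s ≤ 1 := by
    rw [hs, div_le_one h2G]
    exact one_le_pow₀ (by norm_num)
  obtain ⟨N0, hN0⟩ := exists_pow_lt_of_lt_one hs0 h.r1_lt
  have hex : ∀ ω, ∃ m, |pr r I 0 m ω| ≤ s := fun ω => ⟨N0, (pr_abs (fun i => (h.rr i).2) 0 N0 ω).trans hN0.le⟩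
  obtain ⟨τ, hτ⟩ : ∃ τ : Ω → ℕ, τ = fun ω => Nat.find (hex ω) := ⟨_, rfl⟩
  have hτ1 : ∀ ω, |pr r I 0 (τ ω) ω| ≤ s := by
    intro ω
    rw [hτ]
    exact Nat.find_spec (hex ω)
  have hτ2 : ∀ ω m, m < τ ω → s < |pr r I 0 m ω| := by
    intro ω m hm
    rw [hτ] at hm
    exact not_le.1 (Nat.find_min (hex ω) hm)
  have hτ3 : ∀ ω, τ ω ≤ N0 := by
    intro ω
    rw [hτ]
    exact Nat.find_min' (hex ω) ((pr_abs (fun i => (h.rr i).2) 0 N0 ω).trans hN0.le)
  have hτe : ∀ ω m, τ ω = m ↔ |pr r I 0 m ω| ≤ s ∧ ∀ m' < m, ¬ |pr r I 0 m' ω| ≤ s := by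
    intro ω m
    rw [hτ]
    exact Nat.find_eq_iff (hex ω)
  have hlow : ∀ ω, r0 * s ≤ |pr r I 0 (τ ω) ω| := by
    intro ω
    rcases Nat.eq_zero_or_pos (τ ω) with h0 | h0
    · rw [h0, pr_zero, abs_one]
      calc r0 * s ≤ 1 * 1 := mul_le_mul hr01 hs1 hs0.le zero_le_one
        _ = 1 := one_mul 1
    · obtain ⟨m, hm⟩ : ∃ m, τ ω = m + 1 := ⟨τ ω - 1, by omega⟩
      have h1 := hτ2 ω m (by omega)
      rw [hm, pr_succ, abs_mul, mul_comm]
      exact mul_le_mul h1.le (h.rr _).1 h.r0_pos.le (abs_nonneg _)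
  have hsc : ∀ ω, r0 ≤ |2 ^ G * pr r I 0 (τ ω) ω| ∧ |2 ^ G * pr r I 0 (τ ω) ω| ≤ 1 := by
    intro ω
    rw [abs_mul, abs_of_pos h2G]
    constructor
    · have := mul_le_mul_of_nonneg_left (hlow ω) h2G.le
      calc r0 = 2 ^ G * s * r0 := by rw [h2s, one_mul]
        _ = 2 ^ G * (r0 * s) := by ring
        _ ≤ _ := this
    · have := mul_le_mul_of_nonneg_left (hτ1 ω) h2G.le
      rwa [h2s] at this
  refine ⟨Ω, mΩ, μ, fun ω => tr r I V 0 (τ ω) ω,
    fun ω => (μ.map (tl r I V (τ ω))).map fun x => 2 ^ G * pr r I 0 (τ ω) ω * x, ?_, ?_, ?_, ?_, ?_⟩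
  · intro ω
    exact tr_abs (fun i => (h.rr i).2) h.r1_pos.le h.r1_lt h.bd 0 (τ ω) ω
  · intro ω
    have := h.prob (τ ω)
    exact Measure.isProbabilityMeasure_map (measurable_const_mul _).aemeasurable
  · intro ω
    rw [ae_map_iff (measurable_const_mul _).aemeasurable (measurableSet_le continuous_abs.measurable measurable_const)]
    have hms : MeasurableSet {x : ℝ | |2 ^ G * pr r I 0 (τ ω) ω * x| ≤ D / (1 - r1)} :=
      measurableSet_le (continuous_abs.measurable.comp (measurable_const_mul _)) measurable_const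
    rw [ae_map_iff (h.tl_m (τ ω)).aemeasurable hms]
    filter_upwards with ω'
    rw [abs_mul]
    have h3 := tl_abs (I := I) (fun i => (h.rr i).2) h.r1_pos.le h.r1_lt h.bd (τ ω) ω'
    calc |2 ^ G * pr r I 0 (τ ω) ω| * |tl r I V (τ ω) ω'| ≤ 1 * (D / (1 - r1)) :=
          mul_le_mul (hsc ω).2 h3 (abs_nonneg _) (by norm_num)
      _ = _ := one_mul _
  · intro ω
    exact few_scale (hF _) h.r0_pos (hsc ω).1
  · intro f hf
    rw [lintegral_map hf (h.tl_m 0)]
    -- the functions of the stopping time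
    obtain ⟨X, hX⟩ : ∃ X : ℕ → Ω → ℝ≥0∞, X = fun m ω =>
      ∫⁻ y, f (tr r I V 0 m ω + pr r I 0 m ω * y) ∂(μ.map (tl r I V m)) := ⟨_, rfl⟩
    have hXm : ∀ m, Measurable (X m) := by
      intro m
      rw [hX]
      have := h.prob m
      have h3 : Measurable fun z : Ω × ℝ => f (tr r I V 0 m z.1 + pr r I 0 m z.1 * z.2) :=
        hf.comp (((h.tr_m 0 m).comp measurable_fst).add (((h.pr_m 0 m).comp measurable_fst).mul measurable_snd))
      exact h3.lintegral_prod_right'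
    have hτs : ∀ m, MeasurableSet[Fl I V m] {ω | τ ω = m} := by
      intro m
      have h3 : {ω | τ ω = m} = {ω | |pr r I 0 m ω| ≤ s} ∩ ⋂ m' ∈ range m, {ω | |pr r I 0 m' ω| ≤ s}ᶜ := by
        ext ω
        simp only [Set.mem_inter_iff, Set.mem_iInter, Set.mem_compl_iff, Set.mem_ofPred_eq, Finset.mem_range]
        exact hτe ω m
      rw [h3]
      have h4 : ∀ m', m' ≤ m → MeasurableSet[Fl I V m] {ω | |pr r I 0 m' ω| ≤ s} := by
        intro m' hm'
        have h5 : Measurable[Fl I V m] (pr r I 0 m') := pr_meas fun j _ hj => fl_I (by omega)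
        exact h5 (measurableSet_le continuous_abs.measurable measurable_const)
      refine MeasurableSet.inter (h4 m le_rfl) ?_
      refine Finset.measurableSet_biInter _ fun m' hm' => ?_
      exact (h4 m' (Finset.mem_range.1 hm').le).compl
    have hFlm : ∀ m, Fl I V m ≤ mΩ := by
      intro m
      apply iSup₂_le
      intro j _
      exact ((h.mI j).prodMk (h.mV j)).comap_le
    have hind : ∀ m, Measurable[Fl I V m] fun ω => (if τ ω = m then (1 : ℝ≥0∞) else 0) := by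
      intro m
      exact Measurable.ite (hτs m) measurable_const measurable_const
    have hpart : ∀ (Z : ℕ → ℝ≥0∞) ω, ∑ m ∈ range (N0 + 1), (if τ ω = m then (1 : ℝ≥0∞) else 0) * Z m = Z (τ ω) := by
      intro Z ω
      rw [Finset.sum_eq_single (τ ω)]
      · rw [if_pos rfl, one_mul]
      · intro m _ hm
        rw [if_neg (Ne.symm hm), zero_mul]
      · intro hm
        exact absurd (Finset.mem_range.2 (by have := hτ3 ω; omega)) hm
    have e1 : ∀ ω, f (tl r I V 0 ω) = ∑ m ∈ range (N0 + 1), (if τ ω = m then (1 : ℝ≥0∞) else 0) *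
        f (tr r I V 0 m ω + pr r I 0 m ω * tl r I V m ω) := by
      intro ω
      rw [hpart (fun m => f (tr r I V 0 m ω + pr r I 0 m ω * tl r I V m ω)) ω]
      have h3 := tl_split (I := I) (fun i => (h.rr i).2) h.r1_pos.le h.r1_lt h.bd 0 (τ ω) ω
      rw [zero_add] at h3
      rw [h3]
    have e2 : ∀ m, ∫⁻ ω, (if τ ω = m then (1 : ℝ≥0∞) else 0) * f (tr r I V 0 m ω + pr r I 0 m ω * tl r I V m ω) ∂μ =
        ∫⁻ ω, (if τ ω = m then (1 : ℝ≥0∞) else 0) * X m ω ∂μ := by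
      intro m
      have hAm : Measurable[Fl I V m] fun ω => ((if τ ω = m then (1 : ℝ≥0∞) else 0), (tr r I V 0 m ω, pr r I 0 m ω)) := by
        refine (hind m).prodMk (Measurable.prodMk ?_ ?_)
        · exact tr_meas (fun j _ hj => fl_I (by omega)) fun j _ hj => fl_V (by omega)
        · exact pr_meas fun j _ hj => fl_I (by omega)
      have hi2 : IndepFun (fun ω => ((if τ ω = m then (1 : ℝ≥0∞) else 0), (tr r I V 0 m ω, pr r I 0 m ω))) (tl r I V m) μ :=
        h.indep (N := m) hAm (h.tl_fr m)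
      have hFm : Measurable fun z : (ℝ≥0∞ × (ℝ × ℝ)) × ℝ => z.1.1 * f (z.1.2.1 + z.1.2.2 * z.2) := by
        apply (measurable_fst.comp measurable_fst).mul
        apply hf.comp
        exact (measurable_fst.comp (measurable_snd.comp measurable_fst)).add
          ((measurable_snd.comp (measurable_snd.comp measurable_fst)).mul measurable_snd)
      have h3 := lin_ind (hAm.mono (hFlm m) le_rfl) (h.tl_m m) hi2 hFm
      simp only at h3
      rw [h3]
      refine lintegral_congr fun ω => ?_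
      rw [hX]
      simp only
      rw [lintegral_const_mul]
      exact hf.comp ((measurable_id.const_mul _).const_add _)
    simp only [e1]
    rw [lintegral_finsetSum _ (fun m _ => ?_)]
    · simp only [e2]
      have hms : ∀ m ∈ range (N0 + 1), Measurable fun ω => (if τ ω = m then (1 : ℝ≥0∞) else 0) * X m ω :=
        fun m _ => ((hind m).mono (hFlm m) le_rfl).mul (hXm m)
      rw [← lintegral_finsetSum _ hms]
      refine lintegral_congr fun ω => ?_
      rw [hpart (fun m => X m ω) ω, hX]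
      simp only
      have hf2 : Measurable fun y : ℝ => f (tr r I V 0 (τ ω) ω + y / 2 ^ G) :=
        hf.comp ((measurable_id.div_const _).const_add _)
      rw [lintegral_map hf2 (measurable_const_mul _)]
      refine lintegral_congr fun x => ?_
      congr 1
      field_simp
    · apply Measurable.mul ((hind m).mono (hFlm m) le_rfl)
      exact hf.comp ((h.tr_m 0 m).add ((h.pr_m 0 m).mul (h.tl_m m)))

omit [MeasurableSpace ι] [DiscreteMeasurableSpace ι] in
/-- the constants of the ratios -/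
lemma ratio_consts (r : ι → ℝ) (hr : ∀ i, r i ≠ 0 ∧ |r i| < 1) {μ : Measure Ω} [IsProbabilityMeasure μ] (J : Ω → ι) :
    ∃ r0 r1 : ℝ, 0 < r0 ∧ 0 < r1 ∧ r1 < 1 ∧ ∀ i, r0 ≤ |r i| ∧ |r i| ≤ r1 := by
  have hΩ : Nonempty Ω := by
    by_contra hc
    rw [not_nonempty_iff] at hc
    have h1 : μ Set.univ = 1 := measure_univ
    rw [Set.univ_eq_empty_iff.2 hc, measure_empty] at h1
    exact zero_ne_one h1
  have : Nonempty ι := ⟨J hΩ.some⟩
  obtain ⟨i0, _, h0⟩ := Finset.exists_min_image (univ : Finset ι) (fun i => |r i|) Finset.univ_nonempty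
  obtain ⟨i1, _, h1⟩ := Finset.exists_max_image (univ : Finset ι) (fun i => |r i|) Finset.univ_nonempty
  exact ⟨|r i0|, |r i1|, abs_pos.2 (hr _).1, abs_pos.2 (hr _).1, (hr _).2,
    fun i => ⟨h0 i (Finset.mem_univ i), h1 i (Finset.mem_univ i)⟩⟩

/-- **the theorem for random series** -/
theorem rand_series [IsProbabilityMeasure μ] (h : Rs μ I V p r r0 r1 D) {B : ℕ} {ρ c u0 : ℝ} {H : ℕ} (hc : 0 < c)
    (hu : 0 < u0) (hB : ∀ n, ∃ (x : ℝ) (k : ℕ), 1 ≤ k ∧ k ≤ H ∧
      c ≤ μ.real {ω | pr r I n B ω = ρ ∧ tr r I V n B ω = x} ∧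
      c ≤ μ.real {ω | pr r I n B ω = ρ ∧ tr r I V n B ω = x + k * u0})
    {q : ℝ} (hq : 1 < q) (hT : Transcendental ℚ q)
    {g : ℝ → ℝ} (hg : ∀ᵐ ω ∂μ, ContDiffAt ℝ 1 g (tl r I V 0 ω) ∧ deriv g (tl r I V 0 ω) ≠ 0)
    {a : ℕ → ℕ} (ha : StrictMono a) {C : ℝ} (hC : ∀ᶠ k : ℕ in atTop, (a k : ℝ) ≤ C * k) (s : ℕ) (y : ℕ → Fin s → ℝ) :
    ∀ᵐ ω ∂μ, ∀ ε : ℝ, 0 < ε → ∀ᶠ K : ℕ in atTop, ∀ α γ : Fin s → ℝ, (∀ i, 0 ≤ α i ∧ α i ≤ γ i ∧ γ i ≤ 1) →
      |(((Finset.range K).filter (fun k => ∀ i : Fin s, α i ≤ Int.fract (g (tl r I V 0 ω) * q ^ (a k + i) + y k i) ∧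
        Int.fract (g (tl r I V 0 ω) * q ^ (a k + i) + y k i) < γ i)).card : ℝ) / K - ∏ i, (γ i - α i)| ≤ ε := by
  have hQ := h.qs hc hu hB
  have hpr : ∀ n, IsProbabilityMeasure (μ.map (tl r I V n)) := fun n => h.prob n
  obtain ⟨T, hF⟩ := hQ.few (ν := fun n => μ.map (tl r I V n)) (fun n t => h.le_sup n t) hq hT
  obtain ⟨T', D', hD', hP⟩ := h.pre hF
  exact rand_core (h.tl_m 0) hT (fun G hG hG0 => core_pre (by norm_num) hq hD' hP hG hG0) hg ha hC s y

end Pool.Agent.J4H75.CM
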